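import Pool.Agent.P.MP_ccd64a_nt.Cnt

/-! The two stage pure sieve. -/

namespace Pool.Agent.P.MP_ccd64a_nt

open Finset Pool.Agent.Lib.H9

variable {ε : Type*}

/-- The conditional mass of the events. -/
noncomputable def Th (P : Finset ℕ) (E : ℕ → Finset ε) (m c : ε → ℕ) (u : ℕ) : ℝ :=
  ∑ p ∈ P, (#{e ∈ E p | m e ∣ u + c e} : ℝ) / p

theorem prod_card (I : Finset ℕ) (E : ℕ → Finset ε) (A : ℕ → ε → Prop)
    [∀ p, DecidablePred (A p)] :
    ∏ p ∈ I, (#{e ∈ E p | A p e} : ℝ) =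
      ∑ f ∈ I.pi E, if ∀ x ∈ I.attach, A x.1 (f x.1 x.2) then 1 else 0 := by
  simp only [card_filter, Nat.cast_sum, Nat.cast_ite, Nat.cast_one, Nat.cast_zero]
  rw [prod_sum]
  exact sum_congr rfl fun f _ => by rw [prod_ite_zero]; simp

open Classical in
theorem step (I : Finset ℕ) (E : ℕ → Finset ε) (m c : ε → ℕ) {Q : ℕ} (X : ℕ) {T : ℝ} (hQ : 0 < Q)
    (hm : ∀ p ∈ I, ∀ e ∈ E p, m e ∣ Q) (hp : ∀ p ∈ I, p.Prime ∧ p.Coprime Q)
    (hT : ∀ p ∈ I, (#(E p) : ℝ) ≤ T) :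
    |∑ q ∈ Ioc 0 X, ∏ p ∈ I, (#{e ∈ E p | m e * p ∣ q + c e} : ℝ) -
      X / Q * ∑ u ∈ Ioc 0 Q, ∏ p ∈ I, (#{e ∈ E p | m e ∣ u + c e} : ℝ) / p| ≤ ∏ _p ∈ I, T := by
  have e1 : ∀ u, ∏ p ∈ I, (#{e ∈ E p | m e ∣ u + c e} : ℝ) / p =
      (∏ p ∈ I, (#{e ∈ E p | m e ∣ u + c e} : ℝ)) * ∏ x ∈ I.attach, (1 / (x.1 : ℕ) : ℝ) := fun u => by
    rw [prod_attach I fun p => (1 / (p : ℕ) : ℝ), ← prod_mul_distrib]
    exact prod_congr rfl fun p _ => by ring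
  have e2 := fun q => prod_card I E fun p e => m e * p ∣ q + c e
  have e3 := fun u => prod_card I E fun _ e => m e ∣ u + c e
  simp only [e1]
  rw [← sum_mul]
  simp only [e2, e3]
  rw [sum_comm, sum_comm (s := Ioc 0 Q), sum_mul, mul_sum, ← sum_sub_distrib]
  refine (abs_sum_le_sum_abs _ _).trans ((sum_le_card_nsmul _ _ 1 fun f hf => ?_).trans ?_)
  · have h := sys I.attach (fun x => x.1) (fun x => m (f x.1 x.2)) (fun x => c (f x.1 x.2)) X hQ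
      (fun x _ => hm _ x.2 _ (mem_pi.1 hf x.1 x.2)) (fun x _ => (hp _ x.2).1.pos)
      (fun x _ => (hp _ x.2).2) fun x _ y _ hxy =>
        (Nat.coprime_primes (hp _ x.2).1 (hp _ y.2).1).2 fun e => hxy (Subtype.ext e)
    simp only [card_filter, Nat.cast_sum, Nat.cast_ite, Nat.cast_one, Nat.cast_zero] at h
    convert h
  · rw [card_pi, nsmul_eq_mul, mul_one, Nat.cast_prod]
    exact prod_le_prod (fun p _ => Nat.cast_nonneg _) hT

theorem abs_cY (k i : ℕ) : |cY k i| = ∑ j ∈ range k, cZ j i := by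
  unfold cY cZ
  rw [sum_ite_eq]
  simp only [mem_range]
  split_ifs <;> simp

open Classical in
theorem sieve (P : Finset ℕ) (E : ℕ → Finset ε) (m c : ε → ℕ) {Q : ℕ} (X k : ℕ) {T M : ℝ}
    (hQ : 0 < Q) (hm : ∀ p ∈ P, ∀ e ∈ E p, m e ∣ Q) (hp : ∀ p ∈ P, p.Prime ∧ p.Coprime Q)
    (T0 : 0 ≤ T) (hT : ∀ p ∈ P, (#(E p) : ℝ) ≤ T ∧ T ≤ p) (hM1 : 1 ≤ M) (hM : #P * T ≤ M)
    (hd : ∀ p ∈ P, ∀ q, #{e ∈ E p | m e * p ∣ q + c e} ≤ 1) :
    (#{q ∈ Ioc 0 X | ∀ p ∈ P, ∀ e ∈ E p, ¬ m e * p ∣ q + c e} : ℝ) ≤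
      X / Q * ∑ u ∈ Ioc 0 Q, (Real.exp (-Th P E m c u) +
        Th P E m c u ^ (2 * k + 1) / (2 * k + 1).factorial) + (2 * k + 1) * M ^ (2 * k) := by
  set b : ℕ → ℕ → ℝ := fun q p => #{e ∈ E p | m e * p ∣ q + c e} with hb
  set θ : ℕ → ℕ → ℝ := fun u p => (#{e ∈ E p | m e ∣ u + c e} : ℝ) / p with hθ
  have b01 : ∀ q, ∀ p ∈ P, 0 ≤ b q p ∧ b q p ≤ 1 := fun q p h =>
    ⟨Nat.cast_nonneg _, by simp only [hb]; exact_mod_cast hd p h q⟩
  have θ01 : ∀ u, ∀ p ∈ P, 0 ≤ θ u p ∧ θ u p ≤ 1 := fun u p h => by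
    have : (0 : ℝ) < p := by exact_mod_cast (hp p h).1.pos
    refine ⟨by positivity, (div_le_one this).2 ?_⟩
    exact (Nat.cast_le.2 (card_filter_le _ _)).trans ((hT p h).1.trans (hT p h).2)
  have s1 : (#{q ∈ Ioc 0 X | ∀ p ∈ P, ∀ e ∈ E p, ¬ m e * p ∣ q + c e} : ℝ) ≤
      ∑ q ∈ Ioc 0 X, sform P (cY (2 * k + 1)) (b q) := by
    rw [card_filter, Nat.cast_sum]
    refine sum_le_sum fun q _ => le_trans ?_ (prod_le_sform_cY P (b q) (b01 q) k)
    split_ifs with h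
    · rw [prod_eq_one fun p hp' => by simp only [hb]; rw [filter_eq_empty_iff.2 (h p hp')]; simp]
      simp
    · simpa using prod_nonneg fun p hp' => sub_nonneg.2 (b01 q p hp').2
  have s2 : ∑ q ∈ Ioc 0 X, sform P (cY (2 * k + 1)) (b q) -
      X / Q * ∑ u ∈ Ioc 0 Q, sform P (cY (2 * k + 1)) (θ u) ≤ (2 * k + 1) * M ^ (2 * k) := by
    calc _ = ∑ I ∈ P.powerset, cY (2 * k + 1) #I * (∑ q ∈ Ioc 0 X, ∏ p ∈ I, b q p -
          X / Q * ∑ u ∈ Ioc 0 Q, ∏ p ∈ I, θ u p) := by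
          simp only [sform]
          rw [sum_comm, sum_comm (s := Ioc 0 Q), mul_sum, ← sum_sub_distrib]
          refine sum_congr rfl fun I _ => ?_
          rw [← mul_sum, ← mul_sum]; ring
      _ ≤ ∑ I ∈ P.powerset, ∑ j ∈ range (2 * k + 1), cZ j #I * ∏ _p ∈ I, T := by
          refine sum_le_sum fun I hI => (le_abs_self _).trans ?_
          have hI' := mem_powerset.1 hI
          rw [abs_mul, ← sum_mul, ← abs_cY]
          exact mul_le_mul_of_nonneg_left (step I E m c X hQ (fun p h => hm p (hI' h))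
            (fun p h => hp p (hI' h)) fun p h => (hT p (hI' h)).1) (abs_nonneg _)
      _ ≤ ∑ _j ∈ range (2 * k + 1), M ^ (2 * k) := by
          rw [sum_comm]
          refine sum_le_sum fun j hj => (sform_cZ_le P (fun _ => T) (fun _ _ => T0) j).trans ?_
          rw [sum_const, nsmul_eq_mul]
          refine (div_le_self (by positivity) (by exact_mod_cast j.factorial_pos)).trans ?_
          exact (pow_le_pow_left₀ (by positivity) hM j).trans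
            (pow_le_pow_right₀ hM1 (Nat.lt_succ_iff.1 (mem_range.1 hj)))
      _ = _ := by simp
  have s3 : ∀ u, sform P (cY (2 * k + 1)) (θ u) ≤ Real.exp (-Th P E m c u) +
      Th P E m c u ^ (2 * k + 1) / (2 * k + 1).factorial := fun u => by
    have h1 := sform_cY_sub_le P (θ u) (θ01 u) k
    have h2 := sform_cZ_le P (θ u) (fun p h => (θ01 u p h).1) (2 * k + 1)
    have h3 : ∏ p ∈ P, (1 - θ u p) ≤ Real.exp (-Th P E m c u) := by
      rw [Th, ← sum_neg_distrib, Real.exp_sum]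
      exact prod_le_prod (fun p h => sub_nonneg.2 (θ01 u p h).2) fun p _ =>
        Real.one_sub_le_exp_neg _
    have h4 : Th P E m c u = ∑ p ∈ P, θ u p := rfl
    rw [← h4] at h2
    linarith
  have s4 := mul_le_mul_of_nonneg_left (sum_le_sum fun u (_ : u ∈ Ioc 0 Q) => s3 u)
    (show (0 : ℝ) ≤ X / Q by positivity)
  linarith

end Pool.Agent.P.MP_ccd64a_nt
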