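import Mathlib

/-! The choice of the parameter. -/

namespace Pool.Agent.P.MP_ccd64a_nt

open Filter

theorem asym {κ : ℕ} {c C : ℝ} (c0 : 0 < c) (C0 : 0 < C) {f : ℕ → ℝ}
    (h : ∀ᶠ J : ℕ in atTop, ∀ X : ℕ, f X ≤
      3 * X * Real.exp (-(c * J ^ (κ + 1) / Real.log J ^ κ)) +
        2 * Real.exp (C * J ^ (κ + 2) * Real.log J)) :
    ∀ᶠ X : ℕ in atTop, f X ≤ X * Real.exp (-(Real.log X ^ ((κ + 1) / (κ + 2) : ℝ) /
      Real.log (Real.log X) ^ (κ + 1))) := by
  obtain ⟨J0, hJ⟩ := eventually_atTop.1 h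
  have e0 : (0 : ℝ) < ((κ + 2 : ℕ) : ℝ)⁻¹ := by positivity
  set d : ℝ := (1 / (2 * C)) ^ ((κ + 2 : ℕ) : ℝ)⁻¹ with hd
  have d0 : 0 < d := by positivity
  have dp : d ^ (κ + 2) = 1 / (2 * C) := Real.rpow_inv_natCast_pow (by positivity) (by omega)
  have tL : Tendsto (fun X : ℕ => Real.log X) atTop atTop :=
    Real.tendsto_log_atTop.comp tendsto_natCast_atTop_atTop
  have tl := Real.tendsto_log_atTop.comp tL
  have tb := (tendsto_rpow_atTop e0).comp tl
  set K : ℝ := (J0 + 2) / d + 4 with hK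
  have K0 : 4 ≤ K := le_add_of_nonneg_left (by positivity)
  have ta := tL.eventually (((isLittleO_log_rpow_atTop e0).const_mul_left K).bound one_pos)
  filter_upwards [eventually_ge_atTop 1, tL.eventually_ge_atTop 8, ta,
    tl.eventually_ge_atTop (max 1 (1 / (2 * C))),
    tb.eventually_ge_atTop (2 / (c * (d / 2) ^ (κ + 1)))] with X X1 L8 ha hl hb
  simp only [Function.comp] at hl hb
  have X0 : (0 : ℝ) < X := by exact_mod_cast X1
  set L := Real.log X with hL
  set l := Real.log L with hl'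
  have l1 : 1 ≤ l := (le_max_left _ _).trans hl
  have l2 : 1 / (2 * C) ≤ l := (le_max_right _ _).trans hl
  have L0 : 0 < L := by linarith
  set a := L ^ ((κ + 2 : ℕ) : ℝ)⁻¹ with ha'
  set b := l ^ ((κ + 2 : ℕ) : ℝ)⁻¹ with hb'
  have a0 : 0 < a := by positivity
  have b1 : 1 ≤ b := Real.one_le_rpow l1 e0.le
  have ap : a ^ (κ + 2) = L := Real.rpow_inv_natCast_pow L0.le (by omega)
  have bp : b ^ (κ + 2) = l := Real.rpow_inv_natCast_pow (by linarith) (by omega)
  have aα : L ^ ((κ + 1) / (κ + 2) : ℝ) = a ^ (κ + 1) := by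
    rw [ha', ← Real.rpow_mul_natCast L0.le]
    congr 1
    push_cast
    field_simp
  have al : K * l ≤ a := by
    rw [one_mul, Real.norm_of_nonneg a0.le] at ha
    exact (le_abs_self _).trans ha
  have bl : b ≤ l := bp ▸ le_self_pow₀ b1 (by omega)
  set t := d * a / b with ht
  have t1 : J0 + 2 ≤ t := by
    rw [ht, le_div_iff₀ (by linarith)]
    calc (J0 + 2) * b ≤ d * (((J0 + 2) / d) * l) := by
          rw [← mul_assoc, mul_div_cancel₀ _ d0.ne']; gcongr
      _ ≤ _ := by gcongr; exact le_trans (by gcongr; linarith) al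
  have J00 : (0 : ℝ) ≤ J0 := J0.cast_nonneg
  have tp : t ^ (κ + 2) = 1 / (2 * C) * L / l := by rw [ht, div_pow, mul_pow, dp, ap, bp]
  have tL' : t ≤ L := by
    refine (le_self_pow₀ (by linarith) (show κ + 2 ≠ 0 by omega)).trans ?_
    rw [tp, div_le_iff₀ (by linarith), mul_comm]
    gcongr
  set J := ⌊t⌋₊ with hJ'
  have j1 : (J : ℝ) ≤ t := Nat.floor_le (by linarith)
  have j2 : t < J + 1 := Nat.lt_floor_add_one t
  have j3 : J0 + 2 ≤ J := Nat.le_floor (by push_cast; exact t1)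
  have j4 : (2 : ℝ) ≤ J := by exact_mod_cast (by omega : 2 ≤ J)
  have g0 : 0 < Real.log J := Real.log_pos (by linarith)
  have g1 : Real.log J ≤ l := Real.log_le_log (by linarith) (j1.trans tL')
  set R := a ^ (κ + 1) / l ^ (κ + 1) with hR
  have R2 : 2 ≤ R := by
    have : 2 ≤ a / l := by rw [le_div_iff₀ (by linarith)]; nlinarith
    rw [hR, ← div_pow]
    exact this.trans (le_self_pow₀ (by linarith) (by omega))
  have R4 : R ≤ L / 4 := by
    refine (div_le_self (by positivity) (one_le_pow₀ l1)).trans ?_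
    rw [le_div_iff₀ four_pos, ← ap, pow_succ a (κ + 1)]
    gcongr
    nlinarith
  have s1 : C * J ^ (κ + 2) * Real.log J ≤ L / 2 := by
    calc _ ≤ C * t ^ (κ + 2) * l := by gcongr
      _ = _ := by rw [tp]; field_simp
  have s2 : 2 * R ≤ c * J ^ (κ + 1) / Real.log J ^ κ := by
    rw [div_le_iff₀ (by positivity)] at hb
    calc 2 * R ≤ b * (c * (d / 2) ^ (κ + 1)) * R := by gcongr
      _ = c * (t / 2) ^ (κ + 1) / l ^ κ := by
        rw [hR, ht, pow_succ l, ← bp]; simp only [div_pow, mul_pow]; field_simp; ring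
      _ ≤ _ := by gcongr; linarith
  have x1 : 6 ≤ Real.exp 2 := by
    have := Real.exp_one_gt_d9
    rw [show (2 : ℝ) = 1 + 1 by norm_num, Real.exp_add]
    nlinarith
  have x2 : Real.exp (-2) ≤ 1 / 6 := by
    rw [Real.exp_neg, ← one_div]; gcongr
  have y1 : Real.exp (-(c * J ^ (κ + 1) / Real.log J ^ κ)) ≤ Real.exp (-R) * Real.exp (-2) := by
    rw [← Real.exp_add]; exact Real.exp_le_exp.2 (by linarith)
  have y2 : Real.exp (C * J ^ (κ + 2) * Real.log J) ≤ X * Real.exp (-R) * Real.exp (-2) := by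
    rw [← Real.exp_log X0, ← Real.exp_add, ← Real.exp_add]; exact Real.exp_le_exp.2 (by linarith)
  rw [aα]
  refine (hJ J (by omega) X).trans ?_
  have z := mul_pos X0 (Real.exp_pos (-R))
  nlinarith [mul_le_mul_of_nonneg_left y1 X0.le, mul_le_mul_of_nonneg_left x2 z.le]

end Pool.Agent.P.MP_ccd64a_nt
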