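import Pool.Agent.Lib.helper9.BrunHooley

/-! Counting in residue classes and the two stage pure sieve. -/

namespace Pool.Agent.P.MP_ccd64a_nt

open Finset Pool.Agent.Lib.H9

theorem cnt_eq {a b r : ℕ} (hab : a ≤ b) (hr : 0 < r) (v : ℕ) :
    (#{x ∈ Ioc a b | x ≡ v [MOD r]} : ℚ) =
      (⌊((b : ℚ) - v) / r⌋ : ℚ) - (⌊((a : ℚ) - v) / r⌋ : ℚ) := by
  have h := Nat.Ioc_filter_modEq_card a b hr v
  rw [max_eq_left (sub_nonneg.2 (Int.floor_le_floor (by gcongr)))] at h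
  exact_mod_cast h

theorem cnt {a b r : ℕ} (hab : a ≤ b) (hr : 0 < r) (v : ℕ) :
    |(#{x ∈ Ioc a b | x ≡ v [MOD r]} : ℝ) - ((b : ℝ) - a) / r| ≤ 1 := by
  have h : |(#{x ∈ Ioc a b | x ≡ v [MOD r]} : ℚ) - ((b : ℚ) - a) / r| ≤ 1 := by
    rw [cnt_eq hab hr, abs_le]
    have e : ((b : ℚ) - a) / r = ((b : ℚ) - v) / r - ((a : ℚ) - v) / r := by ring
    have := Int.floor_le (((b : ℚ) - v) / r)
    have := Int.lt_floor_add_one (((b : ℚ) - v) / r)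
    have := Int.floor_le (((a : ℚ) - v) / r)
    have := Int.lt_floor_add_one (((a : ℚ) - v) / r)
    constructor <;> linarith
  have h' := (Rat.cast_le (K := ℝ)).2 h
  push_cast at h'
  exact h'

theorem cnt_dvd {Q r : ℕ} (hr : 0 < r) (h : r ∣ Q) (v : ℕ) :
    (#{x ∈ Ioc 0 Q | x ≡ v [MOD r]} : ℝ) = Q / r := by
  obtain ⟨k, rfl⟩ := h
  have h : (#{x ∈ Ioc 0 (r * k) | x ≡ v [MOD r]} : ℚ) = k := by
    rw [cnt_eq (Nat.zero_le _) hr]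
    have e : (((r * k : ℕ) : ℚ) - v) / r = (((0 : ℕ) : ℚ) - v) / r + (k : ℕ) := by
      push_cast; field_simp; ring
    rw [e, Int.floor_add_natCast]
    push_cast; ring
  have h' : (#{x ∈ Ioc 0 (r * k) | x ≡ v [MOD r]} : ℝ) = k := by exact_mod_cast h
  rw [h']
  push_cast; field_simp

theorem dvd_add_iff {m u q c : ℕ} (h : m ∣ u + c) : m ∣ q + c ↔ q ≡ u [MOD m] := by
  rw [← Nat.modEq_zero_iff_dvd] at h ⊢
  exact ⟨fun e => Nat.ModEq.add_right_cancel' c (e.trans h.symm),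
    fun e => (e.add_right c).trans h⟩

theorem modEq_lcm {ι : Type*} (s : Finset ι) (m : ι → ℕ) (q u : ℕ) :
    (∀ i ∈ s, q ≡ u [MOD m i]) ↔ q ≡ u [MOD s.lcm m] := by
  simp only [Nat.modEq_iff_dvd, Int.natCast_dvd, Finset.lcm_dvd_iff]

open Classical in
/-- A system of congruences with moduli `m i * p i`. -/
theorem sys {ι : Type*} (s : Finset ι) (p m c : ι → ℕ) {Q : ℕ} (X : ℕ) (hQ : 0 < Q)
    (hm : ∀ i ∈ s, m i ∣ Q) (hp0 : ∀ i ∈ s, 0 < p i) (hp : ∀ i ∈ s, (p i).Coprime Q)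
    (hpp : Set.Pairwise s (Nat.Coprime.onFun p)) :
    |(#{q ∈ Ioc 0 X | ∀ i ∈ s, m i * p i ∣ q + c i} : ℝ) -
      X / Q * (#{u ∈ Ioc 0 Q | ∀ i ∈ s, m i ∣ u + c i} * ∏ i ∈ s, (1 / p i : ℝ))| ≤ 1 := by
  by_cases h : ∃ u, ∀ i ∈ s, m i ∣ u + c i
  swap
  · rw [filter_eq_empty_iff.2 fun q _ hq => h ⟨q, fun i hi => (Dvd.intro _ rfl).trans (hq i hi)⟩,
      filter_eq_empty_iff.2 fun q _ hq => h ⟨q, hq⟩]
    simp
  obtain ⟨u, hu⟩ := h
  have hD : s.lcm m ∣ Q := Finset.lcm_dvd hm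
  have D0 : 0 < s.lcm m := Nat.pos_of_dvd_of_pos hD hQ
  have R0 : 0 < ∏ i ∈ s, p i := prod_pos hp0
  have co : (s.lcm m).Coprime (∏ i ∈ s, p i) :=
    Nat.Coprime.prod_right fun i hi => ((hp i hi).coprime_dvd_right hD).symm
  obtain ⟨v, hv⟩ := Nat.chineseRemainderOfFinset (fun i => (p i - 1) * c i) p s
    (fun i hi => (hp0 i hi).ne') hpp
  obtain ⟨w, hw1, hw2⟩ := Nat.chineseRemainder co u v
  have w1 : ∀ i ∈ s, m i ∣ w + c i := fun i hi =>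
    (dvd_add_iff (hu i hi)).2 (hw1.of_dvd (Finset.dvd_lcm hi))
  have w2 : ∀ i ∈ s, p i ∣ w + c i := fun i hi => by
    refine (dvd_add_iff (u := (p i - 1) * c i) ⟨c i, ?_⟩).2
      ((hw2.of_dvd (dvd_prod_of_mem _ hi)).trans (hv i hi))
    obtain ⟨k, hk⟩ := Nat.exists_eq_add_one_of_ne_zero (hp0 i hi).ne'
    rw [hk, Nat.add_sub_cancel]; ring
  have e1 : ∀ q, (∀ i ∈ s, m i ∣ q + c i) ↔ q ≡ w [MOD s.lcm m] := fun q => by
    rw [← modEq_lcm]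
    exact forall₂_congr fun i hi => dvd_add_iff (w1 i hi)
  have e2 : ∀ q, (∀ i ∈ s, m i * p i ∣ q + c i) ↔ q ≡ w [MOD s.lcm m * ∏ i ∈ s, p i] := fun q => by
    rw [← Nat.modEq_and_modEq_iff_modEq_mul co, ← Finset.lcm_eq_prod hpp, ← modEq_lcm,
      ← modEq_lcm, ← forall₂_and]
    refine forall₂_congr fun i hi => ?_
    rw [← dvd_add_iff (w1 i hi), ← dvd_add_iff (w2 i hi)]
    exact ⟨fun e => ⟨(Dvd.intro _ rfl).trans e, (Dvd.intro_left _ rfl).trans e⟩, fun e =>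
      ((hp i hi).coprime_dvd_right (hm i hi)).symm.mul_dvd_of_dvd_of_dvd e.1 e.2⟩
  simp only [e1, e2]
  rw [cnt_dvd D0 hD]
  convert cnt (Nat.zero_le X) (Nat.mul_pos D0 R0) w using 3
  have : (0 : ℝ) < Q := by exact_mod_cast hQ
  rw [prod_div_distrib]
  push_cast
  field_simp
  simp

end Pool.Agent.P.MP_ccd64a_nt
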