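import Pool.Agent.P.MP_ccd64a_nt.Cnt
import Pool.Agent.P.MP_0ad054_nt.Chen.Dim
import Pool.Agent.P.MP_0ad054_nt.Div

/-! Mertens products, harmonic sums over coprime integers, integers with many prime factors. -/

namespace Pool.Agent.P.MP_ccd64a_nt

open Finset Pool.Agent.P.MP_0ad054_nt Pool.Agent.Lib.H9 Pool.Agent.P.MP_a14ce1_nt.Ch

theorem mert : ∃ C : ℝ, 0 < C ∧ ∀ w : ℕ, 2 ≤ w → cW w ≤ C * Real.log w := by
  obtain ⟨K, -, hK⟩ := Chen.DimP.S_close
  refine ⟨Real.exp (1 / 2 + K / Real.log 2 - Real.log (Real.log 2) + 2), Real.exp_pos _,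
    fun w hw => ?_⟩
  have h1 := (abs_le.1 (hK 2 w le_rfl hw)).2
  have h2 : ∑ l ∈ Nat.primesLE w, (1 / l : ℝ) ≤ 1 / 2 + Mertens.S 2 w := by
    rw [Nat.primesLE_eq_filter_Ioc_one, Mertens.S, sum_filter, sum_filter,
      ← sum_Ioc_consecutive _ one_le_two hw, show Ioc 1 2 = {2} from rfl]
    simp [Nat.prime_two]
  have h3 : ∑ l ∈ Nat.primesLE w, (((l : ℝ) ^ 2)⁻¹) ≤ 1 := by
    rw [Nat.primesLE_eq_filter_Ioc_one]
    refine (sum_le_sum_of_subset_of_nonneg (filter_subset _ _) fun _ _ _ => by positivity).trans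
      ((sum_Ioc_inv_sq_le_sub one_ne_zero (by omega)).trans ?_)
    simp
  have l0 : 0 < Real.log w := Real.log_pos (by exact_mod_cast hw)
  calc cW w ≤ ∏ l ∈ Nat.primesLE w, Real.exp (1 / l + 2 * ((l : ℝ) ^ 2)⁻¹) := by
        refine prod_le_prod (fun l hl => zero_le_one.trans
          (inv_one_sub_bd (Nat.two_le_of_mem_primesLE hl)).1) fun l hl => ?_
        have h : (2 : ℝ) ≤ l := by exact_mod_cast Nat.two_le_of_mem_primesLE hl
        refine le_trans ?_ (Real.add_one_le_exp _)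
        have : (0 : ℝ) < l - 1 := by linarith
        rw [show (1 - 1 / l : ℝ)⁻¹ = l / (l - 1) by field_simp, div_le_iff₀ this]
        field_simp
        nlinarith
    _ ≤ Real.exp (1 / 2 + K / Real.log 2 - Real.log (Real.log 2) + 2 + Real.log (Real.log w)) := by
        rw [← Real.exp_sum, sum_add_distrib, ← mul_sum]
        push_cast at h1
        exact Real.exp_le_exp.2 (by linarith)
    _ = _ := by rw [Real.exp_add, Real.exp_log l0]

theorem prod_le {S : Finset ℕ} (hS : ∀ l ∈ S, l.Prime) {w : ℕ} (hw : 1 ≤ w) {a : ℝ}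
    (h : (#{l ∈ S | w < l} : ℝ) ≤ a * w) :
    ∏ l ∈ S, (1 - 1 / (l : ℝ))⁻¹ ≤ cW w * Real.exp (2 * a) := by
  have w0 : (0 : ℝ) < w := by exact_mod_cast hw
  have b := fun l hl => inv_one_sub_bd (hS l hl).two_le
  rw [← prod_filter_not_mul_prod_filter S (w < ·)]
  refine mul_le_mul (prod_le_prod_of_subset_of_one_le (fun l hl => ?_) (fun l hl => ?_) fun l hl _ =>
    (inv_one_sub_bd (Nat.two_le_of_mem_primesLE hl)).1) ?_
    (prod_nonneg fun l hl => zero_le_one.trans (b l (mem_filter.1 hl).1).1)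
    (zero_le_one.trans (one_le_cW w))
  · exact Nat.mem_primesLE.2 ⟨not_lt.1 (mem_filter.1 hl).2, hS l (mem_filter.1 hl).1⟩
  · exact zero_le_one.trans (b l (mem_filter.1 hl).1).1
  · calc _ ≤ ∏ _l ∈ S with w < _l, Real.exp (2 / w) := by
          refine prod_le_prod (fun l hl => zero_le_one.trans (b l (mem_filter.1 hl).1).1)
            fun l hl => (b l (mem_filter.1 hl).1).2.trans (le_trans ?_ (Real.add_one_le_exp _))
          have : (w : ℝ) ≤ l := by exact_mod_cast (mem_filter.1 hl).2.le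
          rw [add_comm]
          gcongr
      _ ≤ _ := by
          rw [prod_const, ← Real.exp_nat_mul]
          refine Real.exp_le_exp.2 ?_
          calc _ ≤ a * w * (2 / w) := by gcongr
            _ = _ := by field_simp

theorem inv_totient_le {k n w : ℕ} (hk : k ≠ 0) (h : k ≤ 2 ^ (n * w)) (hw : 1 ≤ w) :
    (1 / k.totient : ℝ) ≤ cW w * Real.exp (2 * n) / k := by
  have k0 : (0 : ℝ) < k := by exact_mod_cast Nat.pos_of_ne_zero hk
  have e : (k.totient : ℝ) = k * ∏ p ∈ k.primeFactors, (1 - 1 / (p : ℝ)) := by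
    have := congrArg (Rat.cast (K := ℝ)) (Nat.totient_eq_mul_prod_factors k)
    push_cast at this
    simpa using this
  have h1 : #k.primeFactors ≤ n * w := by
    refine (Nat.pow_le_pow_iff_right one_lt_two).1 (le_trans ?_ h)
    have := (two_pow_le_tau hk).trans (show tau k ≤ k by
      unfold tau; exact_mod_cast Nat.card_divisors_le_self k)
    exact_mod_cast this
  rw [e, mul_comm, ← div_div, one_div, ← prod_inv_distrib]
  gcongr
  refine prod_le (fun l hl => Nat.prime_of_mem_primeFactors hl) hw ?_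
  exact_mod_cast (card_filter_le _ _).trans h1

theorem free_sum (y : ℕ) (S : Finset ℕ) (hS : ∀ l ∈ S, l.Prime) :
    (∏ l ∈ S, (1 - 1 / (l : ℝ))) * ∑ m ∈ Icc 1 y, (1 / m : ℝ) ≤
      ∑ m ∈ Icc 1 y with ∀ l ∈ S, ¬ l ∣ m, (1 / m : ℝ) := by
  induction S using Finset.induction with
  | empty => simp
  | insert l S hl ih =>
    have l2 := (hS l (mem_insert_self _ _)).two_le
    have l0 : (2 : ℝ) ≤ l := by exact_mod_cast l2
    have h1 : ∑ m ∈ Icc 1 y with (∀ l ∈ S, ¬ l ∣ m) ∧ l ∣ m, (1 / m : ℝ) ≤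
        ∑ m ∈ Icc 1 y with ∀ l ∈ S, ¬ l ∣ m, 1 / l * (1 / m : ℝ) := by
      refine (sum_le_sum_of_subset_of_nonneg (t := ((Icc 1 y).filter fun m => ∀ l ∈ S, ¬ l ∣ m).image
        (l * ·)) (fun m hm => ?_) fun _ _ _ => by positivity).trans_eq ?_
      · obtain ⟨a, b, c⟩ := mem_filter.1 hm
        obtain ⟨a1, a2⟩ := mem_Icc.1 a
        exact mem_image.2 ⟨m / l, mem_filter.2 ⟨mem_Icc.2 ⟨Nat.div_pos (Nat.le_of_dvd a1 c)
          (by omega), (Nat.div_le_self _ _).trans a2⟩,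
          fun q hq e => b q hq (e.trans (Nat.div_dvd_of_dvd c))⟩, Nat.mul_div_cancel' c⟩
      · rw [sum_image fun m _ n _ e => Nat.eq_of_mul_eq_mul_left (by omega) e]
        simp only [one_div_mul_one_div, Nat.cast_mul]
    have h2 := sum_filter_add_sum_filter_not ((Icc 1 y).filter fun m => ∀ l ∈ S, ¬ l ∣ m)
      (l ∣ ·) fun m => (1 / m : ℝ)
    rw [filter_filter, filter_filter] at h2
    have h3 := mul_le_mul_of_nonneg_left (ih fun q hq => hS q (mem_insert_of_mem hq))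
      (show (0 : ℝ) ≤ 1 - 1 / l by rw [sub_nonneg, div_le_one (by linarith)]; linarith)
    rw [← mul_sum] at h1
    simp only [forall_mem_insert, and_comm (a := ¬ l ∣ _)]
    rw [prod_insert hl, mul_assoc]
    linarith

/-- The harmonic sum over the integers coprime to `N`. -/
noncomputable def FF (y N : ℕ) : ℝ := ∑ m ∈ Icc 1 y with m.Coprime N, (1 / m : ℝ)

theorem FF_lo (y N : ℕ) {w : ℕ} (hw : 1 ≤ w)
    (h : #{l ∈ (Ioc w y).filter Nat.Prime | l ∣ N} ≤ w) :
    Real.log (y + 1) / (cW w * Real.exp 2) ≤ FF y N := by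
  set S := {l ∈ Nat.primesLE y | l ∣ N} with hS
  have pS : ∀ l ∈ S, l.Prime := fun l hl => Nat.prime_of_mem_primesLE (mem_filter.1 hl).1
  have h1 := prod_le pS hw (a := 1) (by
    rw [one_mul]
    refine Nat.cast_le.2 (le_trans (card_le_card fun l hl => ?_) h)
    obtain ⟨a, b⟩ := mem_filter.1 hl
    obtain ⟨c, d⟩ := mem_filter.1 a
    exact mem_filter.2 ⟨mem_filter.2 ⟨mem_Ioc.2 ⟨b, Nat.le_of_mem_primesLE c⟩, pS l a⟩, d⟩)
  have h2 : Real.log (y + 1) ≤ ∑ m ∈ Icc 1 y, (1 / m : ℝ) := by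
    have := log_add_one_le_harmonic y
    rw [harmonic_eq_sum_Icc] at this
    push_cast at this
    simpa using this
  have h3 : 0 < ∏ l ∈ S, (1 - 1 / (l : ℝ)) := prod_pos fun l hl =>
    inv_pos.1 (one_pos.trans_le (inv_one_sub_bd (pS l hl).two_le).1)
  rw [prod_inv_distrib, mul_one] at h1
  calc _ ≤ (∑ m ∈ Icc 1 y, (1 / m : ℝ)) / (∏ l ∈ S, (1 - 1 / (l : ℝ)))⁻¹ := by gcongr
    _ ≤ _ := by
      rw [div_inv_eq_mul, mul_comm]
      refine (free_sum y S pS).trans (sum_le_sum_of_subset_of_nonneg (fun m hm => ?_)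
        fun _ _ _ => by positivity)
      obtain ⟨a, b⟩ := mem_filter.1 hm
      refine mem_filter.2 ⟨a, Nat.coprime_of_dvd fun l hl e1 e2 => b l (mem_filter.2 ⟨?_, e2⟩) e1⟩
      exact Nat.mem_primesLE.2 ⟨(Nat.le_of_dvd (mem_Icc.1 a).1 e1).trans (mem_Icc.1 a).2, hl⟩

theorem cnt_four {Q D : ℕ} (hD : 0 < D) (h : D ∣ Q) :
    (#{u ∈ Ioc 0 Q | D ∣ 4 * u + 1} : ℝ) ≤ Q / D := by
  by_cases e : ∃ v, D ∣ 4 * v + 1
  · obtain ⟨v, hv⟩ := e
    have co : D.gcd 4 = 1 := Nat.eq_one_of_dvd_one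
      ((Nat.dvd_add_right ((Nat.gcd_dvd_right D 4).mul_right v)).1 ((Nat.gcd_dvd_left _ _).trans hv))
    rw [← cnt_dvd hD h v]
    exact Nat.cast_le.2 (card_le_card (monotone_filter_right _ fun u _ hu =>
      Nat.ModEq.cancel_left_of_coprime co ((dvd_add_iff hv).1 hu)))
  · rw [filter_eq_empty_iff.2 fun u _ hu => e ⟨u, hu⟩]
    simp only [card_empty, Nat.cast_zero]
    positivity

theorem bad_le {Q : ℕ} (S : Finset ℕ) (hS : ∀ l ∈ S, l.Prime ∧ l ∣ Q) (n : ℕ) :
    (#{u ∈ Ioc 0 Q | n ≤ #{l ∈ S | l ∣ 4 * u + 1}} : ℝ) ≤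
      Q * ((∑ l ∈ S, (1 / l : ℝ)) ^ n / n.factorial) := by
  calc _ ≤ ∑ u ∈ Ioc 0 Q, ∑ I ∈ S.powerset,
          cZ n #I * if ∏ l ∈ I, l ∣ 4 * u + 1 then (1 : ℝ) else 0 := by
        rw [card_filter, Nat.cast_sum]
        refine sum_le_sum fun u _ => ?_
        have p0 : ∀ I ∈ S.powerset, 0 ≤ cZ n #I * if ∏ l ∈ I, l ∣ 4 * u + 1 then (1 : ℝ) else 0 :=
          fun I _ => by unfold cZ; split_ifs <;> simp
        split_ifs with h
        · obtain ⟨I, hI, e⟩ := exists_subset_card_eq h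
          have sI := hI.trans (filter_subset _ _)
          refine le_trans ?_ (single_le_sum p0 (mem_powerset.2 sI))
          rw [if_pos (Finset.prod_primes_dvd _ (fun l hl => (hS l (sI hl)).1.prime)
            fun l hl => (mem_filter.1 (hI hl)).2)]
          simp [cZ, e]
        · simpa using sum_nonneg p0
    _ ≤ Q * sform S (cZ n) fun l => (1 / l : ℝ) := by
        rw [sum_comm, sform, mul_sum]
        refine sum_le_sum fun I hI => ?_
        have sI := mem_powerset.1 hI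
        rw [← mul_sum, sum_boole, mul_left_comm]
        refine mul_le_mul_of_nonneg_left ((cnt_four (prod_pos fun l hl => (hS l (sI hl)).1.pos)
          (Finset.prod_primes_dvd _ (fun l hl => (hS l (sI hl)).1.prime)
            fun l hl => (hS l (sI hl)).2)).trans_eq ?_) (by unfold cZ; split_ifs <;> simp)
        rw [prod_div_distrib, prod_const_one, mul_one_div, Nat.cast_prod]
    _ ≤ _ := mul_le_mul_of_nonneg_left (sform_cZ_le S _ (fun _ _ => by positivity) n)
        (Nat.cast_nonneg _)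

end Pool.Agent.P.MP_ccd64a_nt
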