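import Pool.Agent.P.MP_ccd64a_nt.Mass
import Pool.Agent.P.MP_ccd64a_nt.Mert

/-! The bound for the number of integers that avoid all events. -/

namespace Pool.Agent.P.MP_ccd64a_nt

open Finset Filter Pool.Agent.P.MP_0ad054_nt

variable {ε : Type} {J : ℕ} {T : Finset ε} {M s : ε → ℕ}

theorem tail {a : ℝ} {n : ℕ} (h0 : 0 ≤ a) (h : 8 * a ≤ n) :
    a ^ n / n.factorial ≤ Real.exp (-n) := by
  have h1 := Real.pow_div_factorial_le_exp (n : ℝ) n.cast_nonneg n
  have h2 : Real.exp 2 ≤ 8 := by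
    have := Real.exp_one_lt_d9
    rw [show (2 : ℝ) = 1 + 1 by norm_num, Real.exp_add]
    nlinarith [Real.exp_pos 1]
  calc _ ≤ (n / Real.exp 2) ^ n / n.factorial := by
        gcongr
        rw [le_div_iff₀ (Real.exp_pos _)]
        nlinarith
    _ = (n : ℝ) ^ n / n.factorial / Real.exp (n * 2) := by rw [Real.exp_nat_mul, div_pow]; ring
    _ ≤ Real.exp n / Real.exp (n * 2) := by gcongr
    _ = _ := by rw [← Real.exp_sub]; ring_nf

theorem disj (h : Ty J T M s) {p : ℕ} (hp : p ∈ PP J) (q : ℕ) :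
    #{e ∈ EE J T s p | M e.2 * p ∣ q + e.1} ≤ 1 := by
  refine card_le_one.2 fun e he f hf => ?_
  obtain ⟨e1, e2⟩ := mem_filter.1 he
  obtain ⟨f1, f2⟩ := mem_filter.1 hf
  obtain ⟨e3, e4⟩ := mem_filter.1 e1
  obtain ⟨f3, f4⟩ := mem_filter.1 f1
  obtain ⟨e5, e6⟩ := mem_product.1 e3
  obtain ⟨f5, f6⟩ := mem_product.1 f3
  have p1 : 2 ^ (4 * J + J) < p := lt_of_le_of_lt (Nat.pow_le_pow_right two_pos (by omega))
    (mem_Ioc.1 (mem_filter.1 hp).1).1
  have x : e.1 = f.1 := by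
    replace e2 := (Dvd.intro_left _ rfl).trans e2
    replace f2 := (Dvd.intro_left _ rfl).trans f2
    rw [add_comm] at e2 f2
    exact ((dvd_add_iff f2).1 e2).eq_of_lt_of_lt ((mem_Ioc.1 e5).2.trans_lt p1)
      ((mem_Ioc.1 f5).2.trans_lt p1)
  refine Prod.ext x (h.inj e6 f6 ?_)
  rw [← x] at f4
  have lt : 2 ^ (3 * J) < 4 * e.1 - 1 := by
    have := (mem_Ioc.1 e5).1
    have : 2 ^ (3 * J) ≤ 2 ^ (4 * J) := Nat.pow_le_pow_right two_pos (by omega)
    omega
  rw [mul_right_comm] at e4 f4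
  exact (Nat.ModEq.cancel_left_of_coprime (Nat.eq_one_of_dvd_one ((Nat.dvd_add_right
    ((Nat.gcd_dvd_right _ _).mul_right _)).1 ((Nat.gcd_dvd_left _ _).trans e4)))
    ((dvd_add_iff f4).1 e4)).eq_of_lt_of_lt ((h.sle _ e6).trans_lt lt) ((h.sle _ f6).trans_lt lt)

open Classical in
theorem sieve' (h : Ty J T M s) (X k : ℕ) (A : ℕ → Prop)
    (hA : ∀ q x p t, t ∈ T → 1 ≤ q → 1 ≤ x → 1 ≤ p → 4 * x - 1 ∣ 4 * s t * p + 1 →
      M t * p ∣ q + x → ¬ A q) :
    (#{q ∈ Ioc 0 X | A q} : ℝ) ≤ X / (2 ^ (2 * J)).factorial *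
      ∑ u ∈ Ioc 0 (2 ^ (2 * J)).factorial,
        (Real.exp (-Th (PP J) (EE J T s) (fun e => M e.2) (fun e => e.1) u) +
        Th (PP J) (EE J T s) (fun e => M e.2) (fun e => e.1) u ^ (2 * k + 1) /
          (2 * k + 1).factorial) + (2 * k + 1) * (2 ^ (24 * J)) ^ (2 * k) := by
  have pp : ∀ p ∈ PP J, p.Prime ∧ 2 ^ (7 * J) < p := fun p hp => ⟨(mem_filter.1 hp).2,
    lt_of_le_of_lt (Nat.pow_le_pow_right two_pos (by omega)) (mem_Ioc.1 (mem_filter.1 hp).1).1⟩
  refine le_trans ?_ (sieve (PP J) (EE J T s) (fun e => M e.2) (fun e => e.1) X k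
    (T := 2 ^ (7 * J)) (Nat.factorial_pos _) (fun p _ e he => ?_) (fun p hp => ⟨(pp p hp).1, ?_⟩)
    (by positivity) (fun p hp => ⟨?_, ?_⟩) (one_le_pow₀ one_le_two) ?_ fun p hp q => disj h hp q)
  · refine Nat.cast_le.2 (card_le_card fun q hq => ?_)
    obtain ⟨a, b⟩ := mem_filter.1 hq
    refine mem_filter.2 ⟨a, fun p hp e he d => ?_⟩
    obtain ⟨e1, e2⟩ := mem_filter.1 he
    exact hA q e.1 p e.2 (mem_product.1 e1).2 (mem_Ioc.1 a).1 (XX_pos (mem_product.1 e1).1)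
      (pp p hp).1.pos e2 d b
  · obtain ⟨a, b⟩ := h.M0 _ (mem_product.1 (mem_filter.1 he).1).2
    exact Nat.dvd_factorial a b
  · rw [(pp p hp).1.coprime_iff_not_dvd, (pp p hp).1.dvd_factorial, not_le]
    exact lt_of_le_of_lt (Nat.pow_le_pow_right two_pos (by omega)) (pp p hp).2
  · exact_mod_cast (card_filter_le _ _).trans (card_XT h)
  · exact_mod_cast (pp p hp).2.le
  · rw [show 24 * J = 16 * J + J + 7 * J by ring, pow_add _ _ (7 * J)]
    gcongr
    exact_mod_cast (card_filter_le _ _).trans (by rw [Nat.card_Ioc]; exact Nat.sub_le _ _)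

theorem ev_log (a : ℝ) : ∀ᶠ J : ℕ in atTop, a * Real.log J ≤ J := by
  have h := Real.isLittleO_log_id_atTop.natCast_atTop.const_mul_left a |>.bound one_pos
  filter_upwards [h] with J hJ
  simpa using (le_abs_self _).trans hJ

open Classical in
theorem core {κ : ℕ} (hκ : 1 ≤ κ) : ∃ c C : ℝ, 0 < c ∧ 0 < C ∧ ∀ᶠ J : ℕ in atTop,
    ∀ {ε : Type} (T : Finset ε) (M s : ε → ℕ), Ty J T M s →
    ∑ t ∈ T, (1 / M t : ℝ) ≤ (1 + J) ^ κ →
    (∀ N, FF (2 ^ J) N ^ κ / 2 ≤ ∑ t ∈ T with (M t).Coprime N, (1 / M t : ℝ)) →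
    ∀ (X : ℕ) (A : ℕ → Prop), (∀ q x p t, t ∈ T → 1 ≤ q → 1 ≤ x → 1 ≤ p →
      4 * x - 1 ∣ 4 * s t * p + 1 → M t * p ∣ q + x → ¬ A q) →
    (#{q ∈ Ioc 0 X | A q} : ℝ) ≤ 3 * X * Real.exp (-(c * J ^ (κ + 1) / Real.log J ^ κ)) +
      Real.exp (C * J ^ (κ + 2) * Real.log J) := by
  obtain ⟨C0, C00, hm⟩ := mert
  obtain ⟨C1, C10, hb⟩ := th_bd
  set B : ℝ := C0 * (κ + 1) * Real.exp 2 + 1 with hB
  have B1 : 1 ≤ B := le_add_of_nonneg_left (by positivity)
  set D : ℝ := 2 * B * 2 ^ κ + C1 + 1 with hD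
  have D1 : 1 ≤ D := le_add_of_nonneg_left (by positivity)
  set c : ℝ := 1 / (2176 * (2 * B) ^ κ) with hc
  have c0 : 0 < c := by positivity
  have c1 : c ≤ 1 := by
    have : (1 : ℝ) ≤ (2 * B) ^ κ := one_le_pow₀ (by linarith)
    rw [hc, div_le_one (by positivity)]
    linarith
  refine ⟨c, 275 * D, c0, by positivity, ?_⟩
  filter_upwards [eventually_ge_atTop 9, ev_log B,
    tendsto_natCast_atTop_atTop.eventually_ge_atTop (C1 / c)] with J J9 hJ hJc
  intro ε T M s h hU hL X A hA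
  have J1 : (9 : ℝ) ≤ J := by exact_mod_cast J9
  set l := Real.log J with hl
  have l1 : 1 ≤ l := by
    rw [hl, Real.le_log_iff_exp_le (by linarith)]
    linarith [Real.exp_one_lt_d9]
  have lJ : l ≤ J := le_trans (by nlinarith) hJ
  set w := J ^ (κ + 1) with hw
  have wJ : J * J ≤ w := by rw [← sq]; exact Nat.pow_le_pow_right (by omega) (by omega)
  have w1 : 2 ≤ w := by nlinarith
  have wR : (w : ℝ) = J ^ (κ + 1) := by rw [hw, Nat.cast_pow]
  have wJ' : (J : ℝ) * J ≤ J ^ (κ + 1) := by exact_mod_cast wJ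
  have hW : cW w * Real.exp 2 ≤ B * l := by
    have := hm w w1
    rw [wR, Real.log_pow] at this
    push_cast at this
    nlinarith [Real.exp_pos 2]
  have hG : ∀ x ∈ XX J, (1 / (4 * x - 1).totient : ℝ) ≤ B * l / x := fun x hx => by
    have x1 := XX_pos hx
    have x2 := (mem_Ioc.1 hx).2
    have := inv_totient_le (k := 4 * x - 1) (n := 1) (w := w) (by omega) (by
      calc 4 * x - 1 ≤ 2 ^ 2 * 2 ^ (4 * J + J) := by omega
        _ ≤ _ := by rw [← pow_add]; exact Nat.pow_le_pow_right two_pos (by nlinarith)) (by omega)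
    rw [Nat.cast_one, mul_one] at this
    refine this.trans (div_le_div₀ (by positivity) hW (by exact_mod_cast x1) ?_)
    exact_mod_cast (by omega : x ≤ 4 * x - 1)
  have bd := fun u => hb J T M s u (by omega) h fun x hx => (hG x hx).trans (by gcongr)
  set Θ := Th (PP J) (EE J T s) (fun e => M e.2) (fun e => e.1) with hΘ
  have Θ0 : ∀ u, 0 ≤ Θ u := fun u => sum_nonneg fun _ _ => by positivity
  set E : ℝ := l * J ^ (κ + 1) with hE
  have E1 : (J : ℝ) ^ (κ + 1) ≤ E := le_mul_of_one_le_left (by positivity) l1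
  have E2 : 1 ≤ E := by nlinarith
  have up : ∀ u, Θ u ≤ D * E := fun u => by
    have h1 := Phi_up h (by positivity) hG u
    have h2 : 2 * (B * l) * J * ∑ t ∈ T, (1 / M t : ℝ) ≤ 2 * (B * l) * J * (2 * J) ^ κ := by
      gcongr
      exact hU.trans (by gcongr; linarith)
    have h3 : 2 * (B * l) * J * (2 * J) ^ κ = 2 * B * 2 ^ κ * E := by rw [hE]; ring
    nlinarith [(bd u).1]
  set R : ℝ := c * J ^ (κ + 1) / l ^ κ with hR
  have R1 : R ≤ J ^ (κ + 1) :=
    (div_le_self (by positivity) (one_le_pow₀ l1)).trans (mul_le_of_le_one_left (by positivity) c1)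
  have R2 : C1 ≤ R := by
    rw [div_le_iff₀ c0] at hJc
    calc C1 ≤ c * J ^ (κ + 1) / J ^ κ := by rw [pow_succ]; field_simp; linarith
      _ ≤ R := by rw [hR]; gcongr
  set S := (Ioc w (2 ^ J)).filter Nat.Prime with hS
  have lo : ∀ u, ¬ w ≤ #{l ∈ S | l ∣ 4 * u + 1} → R ≤ Θ u := fun u hu => by
    have h1 := FF_lo (2 ^ J) (4 * u + 1) (by omega) (not_le.1 hu).le
    have h2 : J / (2 * B * l) ≤ FF (2 ^ J) (4 * u + 1) := by
      refine le_trans ?_ h1
      have := one_le_cW w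
      have h3 : (J : ℝ) / 2 ≤ Real.log (((2 ^ J : ℕ) : ℝ) + 1) := (log_two_pow J).1.trans
        (Real.log_le_log (by positivity) (by push_cast; linarith))
      rw [mul_assoc, ← div_div]
      exact div_le_div₀ (by linarith) h3 (by positivity) hW
    have h3 : J / 16 * ((J / (2 * B * l)) ^ κ / 2) ≤ Phi J T M s u := by
      refine le_trans ?_ (Phi_lo h (by omega) u)
      gcongr
      exact le_trans (by gcongr) (hL _)
    have h4 : J / 16 * ((J / (2 * B * l)) ^ κ / 2) = 68 * R := by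
      rw [hR, hc, div_pow, mul_pow (2 * B)]; field_simp; ring
    linarith [(bd u).2]
  set k := ⌈4 * D * E⌉₊ with hk
  have k1 : 4 * D * E ≤ k := Nat.le_ceil _
  have k2 : (k : ℝ) ≤ 4 * D * E + 1 := (Nat.ceil_lt_add_one (by positivity)).le
  have DE : E ≤ D * E := le_mul_of_one_le_left (by positivity) D1
  set Q := (2 ^ (2 * J)).factorial with hQ
  have Q0 : (0 : ℝ) < Q := by exact_mod_cast Nat.factorial_pos _
  have bad : (#{u ∈ Ioc 0 Q | w ≤ #{l ∈ S | l ∣ 4 * u + 1}} : ℝ) ≤ Q * Real.exp (-R) := by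
    refine (bad_le S (fun p hp => ⟨(mem_filter.1 hp).2, Nat.dvd_factorial (mem_filter.1 hp).2.pos
      ((mem_Ioc.1 (mem_filter.1 hp).1).2.trans (Nat.pow_le_pow_right two_pos (by omega)))⟩)
      w).trans (mul_le_mul_of_nonneg_left ((tail (sum_nonneg fun _ _ => by positivity) ?_).trans
        (Real.exp_le_exp.2 (by linarith))) Q0.le)
    have h1 : ∑ l ∈ S, (1 / l : ℝ) ≤ 1 + J := by
      refine (sum_le_sum_of_subset_of_nonneg (fun p hp => ?_) fun _ _ _ => by positivity).trans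
        ((sum_inv_le_log (2 ^ J)).trans (by push_cast; linarith [(log_two_pow J).2]))
      exact mem_Icc.2 ⟨(mem_filter.1 hp).2.pos, (mem_Ioc.1 (mem_filter.1 hp).1).2⟩
    nlinarith
  have s1 : ∑ u ∈ Ioc 0 Q, (Real.exp (-Θ u) + Θ u ^ (2 * k + 1) / (2 * k + 1).factorial) ≤
      3 * Q * Real.exp (-R) := by
    calc _ ≤ ∑ u ∈ Ioc 0 Q, ((if w ≤ #{l ∈ S | l ∣ 4 * u + 1} then (1 : ℝ) else 0) +
          2 * Real.exp (-R)) := by
          refine sum_le_sum fun u _ => ?_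
          have h1 := (tail (n := 2 * k + 1) (Θ0 u) (by push_cast; linarith [up u])).trans
            (Real.exp_le_exp.2 (show _ ≤ -R by push_cast; linarith))
          have h2 := Real.exp_pos (-R)
          split_ifs with hu
          · linarith [Real.exp_le_one_iff.2 (neg_nonpos.2 (Θ0 u))]
          · linarith [Real.exp_le_exp.2 (neg_le_neg (lo u hu))]
      _ ≤ _ := by
          rw [sum_add_distrib, sum_boole, sum_const, Nat.card_Ioc, nsmul_eq_mul, Nat.sub_zero]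
          linarith
  refine (sieve' h X k A hA).trans (add_le_add ?_ ?_)
  · calc _ ≤ X / Q * (3 * Q * Real.exp (-R)) := by gcongr
      _ = _ := by field_simp
  · have h1 : (2 : ℝ) ^ (24 * J) ≤ Real.exp (24 * J) := by
      rw [← Real.log_le_iff_le_exp (by positivity)]
      exact_mod_cast (log_two_pow (24 * J)).2
    calc _ ≤ Real.exp (2 * k) * Real.exp (24 * J) ^ (2 * k) := by
          gcongr
          exact Real.add_one_le_exp _
      _ ≤ _ := by
          rw [← Real.exp_nat_mul, ← Real.exp_add]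
          refine Real.exp_le_exp.2 ?_
          have h2 : 275 * D * J ^ (κ + 2) * l = 275 * (J * (D * E)) := by rw [hE]; ring
          have h3 : (k : ℝ) ≤ 5 * (D * E) := by linarith
          have h4 : (J : ℝ) * k ≤ J * (5 * (D * E)) := by gcongr
          have h5 : (k : ℝ) ≤ J * k := le_mul_of_one_le_left (by positivity) (by linarith)
          push_cast
          nlinarith

end Pool.Agent.P.MP_ccd64a_nt
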