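import Pool.Agent.P.MP_ccd64a_nt.Core
import Pool.Agent.P.MP_ccd64a_nt.Asym

/-! The two applications. -/

namespace Pool.Agent.P.MP_ccd64a_nt

open Finset Filter Pool.Agent.P.MP_0ad054_nt

open Classical in
theorem both {κ : ℕ} (hκ : 1 ≤ κ) {ε : Type} (T : ℕ → Finset ε) (M s : ε → ℕ) (A : ℕ → Prop)
    (h : ∀ J, Ty J (T J) M s) (hU : ∀ J, ∑ t ∈ T J, (1 / M t : ℝ) ≤ (1 + J) ^ κ)
    (hL : ∀ J N, FF (2 ^ J) N ^ κ / 2 ≤ ∑ t ∈ T J with (M t).Coprime N, (1 / M t : ℝ))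
    (hA : ∀ J q x p t, t ∈ T J → 1 ≤ q → 1 ≤ x → 1 ≤ p →
      4 * x - 1 ∣ 4 * s t * p + 1 → M t * p ∣ q + x → ¬ A q) :
    ∀ᶠ X : ℕ in atTop, (#{q ∈ Ioc 0 X | A q} : ℝ) ≤ X * Real.exp
      (-(Real.log X ^ ((κ + 1) / (κ + 2) : ℝ) / Real.log (Real.log X) ^ (κ + 1))) := by
  obtain ⟨c, C, c0, C0, hc⟩ := core hκ
  refine asym c0 C0 (hc.mono fun J hJ X => (hJ _ M s (h J) (hU J) (hL J) X A (hA J)).trans ?_)
  linarith [Real.exp_pos (C * J ^ (κ + 2) * Real.log J)]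

theorem card_dvd (S : Finset ℕ) {D : ℕ} (hD : D ≠ 0) : (#{t ∈ S | t ∣ D} : ℝ) ≤ tau D :=
  Nat.cast_le.2 (card_le_card fun _ ht => Nat.mem_divisors.2 ⟨(mem_filter.1 ht).2, hD⟩)

theorem harm (J : ℕ) : ∑ t ∈ Icc 1 (2 ^ J), (1 / (t : ℕ) : ℝ) ≤ 1 + J :=
  (sum_inv_le_log _).trans (by push_cast; linarith [(log_two_pow J).2])

theorem FF0 (y N : ℕ) : 0 ≤ FF y N := sum_nonneg fun _ _ => by positivity

open Classical in
theorem p2 : ∀ᶠ X : ℕ in atTop, (#((Ioc 0 X).filter fun q : ℕ => ¬ ∃ x y z : ℤ, 1 ≤ x ∧ 1 ≤ y ∧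
    1 ≤ z ∧ (q : ℤ) = x * (4 * y * z - z - 1) - y * z) : ℝ) ≤ X * Real.exp
      (-(Real.log X ^ (2 / 3 : ℝ) / Real.log (Real.log X) ^ 2)) := by
  have h := both (κ := 1) le_rfl (fun J => Icc 1 (2 ^ J)) id id
    (fun q => ¬ ∃ x y z : ℤ, 1 ≤ x ∧ 1 ≤ y ∧ 1 ≤ z ∧ (q : ℤ) = x * (4 * y * z - z - 1) - y * z)
    (fun J => ⟨fun t ht => ⟨(mem_Icc.1 ht).1, (mem_Icc.1 ht).2.trans
      (Nat.pow_le_pow_right two_pos (by omega))⟩, fun t ht => (mem_Icc.1 ht).2.trans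
      (Nat.pow_le_pow_right two_pos (by omega)), fun t _ => dvd_pow_self _ two_ne_zero,
      Set.injOn_id _, fun D hD => (card_dvd _ hD).trans (le_self_pow₀ (one_le_tau hD) two_ne_zero),
      by simpa using Nat.pow_le_pow_right two_pos (by omega)⟩)
    (fun J => by simpa using harm J)
    (fun J N => by rw [pow_one]; exact half_le_self (FF0 _ _))
    (fun J q x p t ht q1 x1 p1 ⟨b, hb⟩ ⟨z, hz⟩ hn => hn ?_)
  · convert h using 6
    norm_num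
  · simp only [id] at hb hz
    obtain ⟨x, rfl⟩ := Nat.exists_eq_add_of_le' x1
    rw [show 4 * (x + 1) - 1 = 4 * x + 3 by omega] at hb
    have b3 : b % 4 = 3 := by
      have : 4 * (t * p) + 1 = 4 * (x * b) + 3 * b := by linarith
      omega
    obtain ⟨y, rfl⟩ : ∃ y, b = 4 * y + 3 := ⟨b / 4, by omega⟩
    have z1 : 1 ≤ z := Nat.pos_of_ne_zero (by rintro rfl; omega)
    refine ⟨x + 1, y + 1, z, by omega, by omega, by omega, ?_⟩
    zify at hb hz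
    have : (t : ℤ) * p = 4 * x * y + 3 * x + 3 * y + 2 := by linarith
    rw [this] at hz
    linarith

/-- Pairs of an integer and a squarefree integer. -/
def T2 (J : ℕ) : Finset (ℕ × ℕ) := Icc 1 (2 ^ J) ×ˢ (Icc 1 (2 ^ J)).filter Squarefree

theorem T2_inj (J : ℕ) : Set.InjOn (fun t : ℕ × ℕ => t.1 ^ 2 * t.2) (T2 J) := by
  rintro ⟨a, m⟩ h1 ⟨b, n⟩ h2 e
  simp only [T2, mem_coe, mem_product, mem_filter, mem_Icc] at h1 h2 e
  obtain ⟨g, a, b, g0, co, rfl, rfl⟩ := Nat.exists_coprime' (Nat.gcd_pos_of_pos_left b h1.1.1)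
  have e' : a ^ 2 * m = b ^ 2 * n := Nat.eq_of_mul_eq_mul_left (pow_pos g0 2) (by linarith)
  have a1 : a = 1 := Nat.isUnit_iff.1 (h2.2.2 a (by
    rw [← sq]; exact (co.pow 2 2).dvd_of_dvd_mul_left ⟨m, e'.symm⟩))
  have b1 : b = 1 := Nat.isUnit_iff.1 (h1.2.2 b (by
    rw [← sq]; exact (co.symm.pow 2 2).dvd_of_dvd_mul_left ⟨n, e'⟩))
  subst a1 b1
  simpa using e'

theorem FF_sqf (J N : ℕ) : FF (2 ^ J) N ≤
    2 * ∑ m ∈ (Icc (1 : ℕ) (2 ^ J)).filter Squarefree with m.Coprime N, (1 / m : ℝ) := by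
  calc _ ≤ ∑ n ∈ ((T2 J).filter fun t => t.2.Coprime N).image fun t => t.1 ^ 2 * t.2,
        (1 / (n : ℕ) : ℝ) := by
        refine sum_le_sum_of_subset_of_nonneg (fun n hn => ?_) fun _ _ _ => by positivity
        obtain ⟨h1, h2⟩ := mem_filter.1 hn
        obtain ⟨n1, n2⟩ := mem_Icc.1 h1
        obtain ⟨a, b, a0, b0, e, ha⟩ := Nat.sq_mul_squarefree_of_pos n1
        refine mem_image.2 ⟨(b, a), mem_filter.2 ⟨mem_product.2 ⟨mem_Icc.2 ⟨b0, ?_⟩, mem_filter.2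
          ⟨mem_Icc.2 ⟨a0, ?_⟩, ha⟩⟩, h2.coprime_dvd_left ⟨b ^ 2, by rw [← e, mul_comm]⟩⟩, e⟩
        · exact (Nat.le_of_dvd n1 ⟨b * a, by rw [← e]; ring⟩).trans n2
        · exact (Nat.le_of_dvd n1 ⟨b ^ 2, by rw [← e, mul_comm]⟩).trans n2
    _ = (∑ b ∈ Icc 1 (2 ^ J), (((b : ℕ) : ℝ) ^ 2)⁻¹) *
        ∑ m ∈ (Icc (1 : ℕ) (2 ^ J)).filter Squarefree with m.Coprime N, (1 / m : ℝ) := by
        rw [sum_image ((T2_inj J).mono (coe_subset.2 (filter_subset _ _))), T2,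
          filter_product_right (fun m : ℕ => m.Coprime N), sum_product, sum_mul_sum]
        simp [mul_comm]
    _ ≤ _ := by
        gcongr
        have := sum_Ioc_inv_sq_le_sub (α := ℝ) one_ne_zero (Nat.one_le_two_pow (n := J))
        rw [← add_sum_Ioc_eq_sum_Icc Nat.one_le_two_pow]
        have : (0 : ℝ) ≤ ((2 ^ J : ℕ) : ℝ)⁻¹ := by positivity
        simp only [Nat.cast_one, one_pow, inv_one] at *
        linarith

open Classical in
theorem es1 : ∀ᶠ X : ℕ in atTop, (#{q ∈ Ioc 0 X | ¬ ∃ x y z : ℕ, 0 < x ∧ 0 < y ∧ 0 < z ∧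
    (4 : ℚ) / (4 * q + 1 : ℕ) = 1 / x + 1 / y + 1 / z} : ℝ) ≤ X * Real.exp
      (-(Real.log X ^ (3 / 4 : ℝ) / Real.log (Real.log X) ^ 3)) := by
  have mem : ∀ J, ∀ t ∈ T2 J, (1 ≤ t.1 ∧ t.1 ≤ 2 ^ J) ∧ 1 ≤ t.2 ∧ t.2 ≤ 2 ^ J := fun J t ht =>
    ⟨mem_Icc.1 (mem_product.1 ht).1, mem_Icc.1 (mem_filter.1 (mem_product.1 ht).2).1⟩
  have h := both (κ := 2) one_le_two T2 (fun t => t.1 * t.2) (fun t => t.1 ^ 2 * t.2)
    (fun q => ¬ ∃ x y z : ℕ, 0 < x ∧ 0 < y ∧ 0 < z ∧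
      (4 : ℚ) / (4 * q + 1 : ℕ) = 1 / x + 1 / y + 1 / z)
    (fun J => ⟨fun t ht => ?_, fun t ht => ?_, fun t _ => ⟨t.2, by ring⟩, T2_inj J, fun D hD => ?_,
      ?_⟩) (fun J => ?_) (fun J N => ?_) (fun J q x p t ht q1 x1 p1 ⟨e, he⟩ ⟨c, hc⟩ hn => hn ?_)
  · convert h using 6
    norm_num
  · obtain ⟨⟨a, b⟩, c, d⟩ := mem J t ht
    exact ⟨Nat.mul_pos a c, by rw [two_mul, pow_add]; exact Nat.mul_le_mul b d⟩
  · obtain ⟨⟨a, b⟩, c, d⟩ := mem J t ht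
    rw [show 3 * J = J * 2 + J by ring, pow_add, pow_mul]
    exact Nat.mul_le_mul (Nat.pow_le_pow_left b 2) d
  · calc _ ≤ (#{t ∈ T2 J | t.1 ∣ D ∧ t.2 ∣ D} : ℝ) :=
          Nat.cast_le.2 (card_le_card (monotone_filter_right _ fun t _ ht =>
            ⟨(Dvd.intro _ rfl).trans ht, (Dvd.intro_left _ rfl).trans ht⟩))
      _ ≤ _ := by
          rw [T2, filter_product (· ∣ D) (· ∣ D), card_product, Nat.cast_mul, sq]
          exact mul_le_mul (card_dvd _ hD) (card_dvd _ hD) (Nat.cast_nonneg _) (tau_nonneg _)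
  · rw [T2, card_product, two_mul, pow_add]
    exact Nat.mul_le_mul (by simp) ((card_filter_le _ _).trans (by simp))
  · rw [T2, sum_product, sq]
    simp only [Nat.cast_mul, ← one_div_mul_one_div]
    rw [← sum_mul_sum]
    exact mul_le_mul (harm J) ((sum_le_sum_of_subset_of_nonneg (filter_subset _ _)
      fun _ _ _ => by positivity).trans (harm J)) (by positivity) (by positivity)
  · simp only [Nat.coprime_mul_iff_left]
    rw [T2, filter_product (fun m : ℕ => m.Coprime N) (fun m : ℕ => m.Coprime N), sum_product]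
    simp only [Nat.cast_mul, ← one_div_mul_one_div]
    rw [← sum_mul_sum, sq, mul_div_assoc]
    exact mul_le_mul_of_nonneg_left (by linarith [FF_sqf J N]) (FF0 _ _)
  · obtain ⟨⟨a1, -⟩, m1, -⟩ := mem J t ht
    obtain ⟨a, m⟩ := t
    dsimp only at *
    obtain ⟨x, rfl⟩ := Nat.exists_eq_add_of_le' x1
    rw [show 4 * (x + 1) - 1 = 4 * x + 3 by omega] at he
    have c1 : 1 ≤ c := Nat.pos_of_ne_zero (by rintro rfl; omega)
    have k1 : (4 * x + 3) * (c * e) = (4 * x + 3) * a + (a * (4 * q + 1) + c) := by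
      zify at he hc ⊢
      linear_combination (-c) * he - 4 * a * hc
    obtain ⟨b, hb⟩ := Nat.exists_eq_add_of_le (show a ≤ c * e from
      Nat.le_of_mul_le_mul_left (k1 ▸ Nat.le_add_right _ _) (by omega : 0 < 4 * x + 3))
    rw [hb, mul_add, add_right_inj] at k1
    have b1 : 1 ≤ b := Nat.pos_of_ne_zero (by rintro rfl; omega)
    refine ⟨a * b * (m * p) * (4 * q + 1), a * c * (m * p), b * c * (m * p), by positivity,
      by positivity, by positivity, ?_⟩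
    have k2 : (4 * x + 3) * (b : ℚ) = a * (4 * q + 1) + c := by exact_mod_cast k1
    have k3 : (q : ℚ) + (x + 1) = a * m * p * c := by exact_mod_cast hc
    push_cast
    field_simp
    linear_combination k2 - 4 * b * k3

theorem es_triv {n : ℕ} (h2 : 2 ≤ n) (h : n % 4 ≠ 1) : ∃ x y z : ℕ, 0 < x ∧ 0 < y ∧ 0 < z ∧
    (4 : ℚ) / n = 1 / x + 1 / y + 1 / z := by
  rcases Nat.even_or_odd' n with ⟨k, rfl | rfl⟩
  · have : 0 < k := by omega
    refine ⟨k, 2 * k, 2 * k, this, by omega, by omega, ?_⟩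
    push_cast; field_simp; ring
  · obtain ⟨j, rfl⟩ : ∃ j, k = 2 * j + 1 := ⟨k / 2, by omega⟩
    refine ⟨j + 1, 2 * (4 * j + 3) * (j + 1), 2 * (4 * j + 3) * (j + 1), by omega, by positivity,
      by positivity, ?_⟩
    push_cast; field_simp; ring

open Classical in
theorem es : ∀ᶠ X : ℕ in atTop, (#((Icc 2 X).filter fun n : ℕ => ¬ ∃ x y z : ℕ, 0 < x ∧ 0 < y ∧
    0 < z ∧ (4 : ℚ) / n = 1 / x + 1 / y + 1 / z) : ℝ) ≤ X * Real.exp
      (-(Real.log X ^ (3 / 4 : ℝ) / Real.log (Real.log X) ^ 3)) := by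
  refine es1.mono fun X hX => le_trans (Nat.cast_le.2 ?_) hX
  have k : ∀ n : ℕ, n ∈ Icc 2 X → (¬ ∃ x y z : ℕ, 0 < x ∧ 0 < y ∧ 0 < z ∧
      (4 : ℚ) / n = 1 / x + 1 / y + 1 / z) → n % 4 = 1 := fun n hn h =>
    by_contra fun e => h (es_triv (mem_Icc.1 hn).1 e)
  refine card_le_card_of_injOn (· / 4) (fun n hn => ?_) fun n hn m hm e => ?_
  · obtain ⟨a, b⟩ := mem_filter.1 hn
    have := k n a b
    obtain ⟨c, d⟩ := mem_Icc.1 a
    refine mem_filter.2 ⟨mem_Ioc.2 (show 0 < n / 4 ∧ n / 4 ≤ X by omega), ?_⟩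
    dsimp only
    rwa [show 4 * (n / 4) + 1 = n by omega]
  · have := k n (mem_filter.1 hn).1 (mem_filter.1 hn).2
    have := k m (mem_filter.1 hm).1 (mem_filter.1 hm).2
    simp only at e
    omega

end Pool.Agent.P.MP_ccd64a_nt
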