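import Pool.Agent.P.MP_ccd64a_nt.Theta

/-! Two sided bounds for the conditional mass. -/

namespace Pool.Agent.P.MP_ccd64a_nt

open Finset Pool.Agent.P.MP_0ad054_nt

variable {ε : Type} {J : ℕ} {T : Finset ε} {M s : ε → ℕ}

/-- The main term. -/
noncomputable def Phi (J : ℕ) (T : Finset ε) (M s : ε → ℕ) (u : ℕ) : ℝ :=
  ∑ e ∈ RR J T M s u, (1 / (4 * e.1 - 1).totient : ℝ)

theorem Phi_up (h : Ty J T M s) {G : ℝ} (G0 : 0 ≤ G)
    (hG : ∀ x ∈ XX J, (1 / (4 * x - 1).totient : ℝ) ≤ G / x) (u : ℕ) :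
    Phi J T M s u ≤ 2 * G * J * ∑ t ∈ T, (1 / M t : ℝ) := by
  calc _ ≤ ∑ e ∈ XX J ×ˢ T with M e.2 ∣ u + e.1, G * (1 / e.1 : ℝ) := by
        refine (sum_le_sum fun e he => ?_).trans (sum_le_sum_of_subset_of_nonneg
          (monotone_filter_right _ fun e _ a => a.1) fun _ _ _ => by positivity)
        rw [mul_one_div]
        exact hG _ (mem_product.1 (mem_filter.1 he).1).1
    _ ≤ _ := by
        rw [sum_filter, sum_product_right, mul_sum]
        refine sum_le_sum fun t ht => ?_
        dsimp only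
        rw [← sum_filter, ← mul_sum]
        obtain ⟨a, b⟩ := h.M0 t ht
        have := ap_up (a := 4 * J) a (b.trans (Nat.pow_le_pow_right two_pos (by omega))) u J
        calc _ ≤ G * (2 * J / M t) := mul_le_mul_of_nonneg_left this G0
          _ = _ := by ring

theorem Phi_lo (h : Ty J T M s) (J1 : 1 ≤ J) (u : ℕ) :
    J / 16 * ∑ t ∈ T with (M t).Coprime (4 * u + 1), (1 / M t : ℝ) ≤ Phi J T M s u := by
  calc _ ≤ ∑ e ∈ XX J ×ˢ T with (M e.2).Coprime (4 * u + 1) ∧ M e.2 ∣ u + e.1,
          1 / 4 * (1 / e.1 : ℝ) := by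
        rw [sum_filter, sum_filter, sum_product_right, mul_sum]
        refine sum_le_sum fun t ht => ?_
        dsimp only
        by_cases hc : (M t).Coprime (4 * u + 1)
        · simp only [eq_true hc, true_and, if_true]
          rw [← sum_filter, ← mul_sum]
          obtain ⟨a, b⟩ := h.M0 t ht
          have := ap_lo (a := 4 * J) a ((Nat.mul_le_mul_left 2 b).trans (by
            rw [← pow_succ']; exact Nat.pow_le_pow_right two_pos (by omega))) u J
          calc _ = 1 / 4 * (J / (4 * M t) : ℝ) := by ring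
            _ ≤ _ := by gcongr; exact this
        · simp [hc]
    _ ≤ _ := by
        refine (sum_le_sum fun e he => ?_).trans (sum_le_sum_of_subset_of_nonneg (fun e he => ?_)
          fun _ _ _ => by positivity)
        · have x1 := XX_pos (mem_product.1 (mem_filter.1 he).1).1
          rw [one_div_mul_one_div]
          refine one_div_le_one_div_of_le (by exact_mod_cast Nat.totient_pos.2 (by omega)) ?_
          exact_mod_cast (Nat.totient_le _).trans (by omega)
        · obtain ⟨a, b, c⟩ := mem_filter.1 he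
          have x1 := XX_pos (mem_product.1 a).1
          refine mem_filter.2 ⟨a, c, Nat.Coprime.mul_left ?_ ?_⟩
          · refine Nat.Coprime.pow_left (m := 2) 2 ?_
            rw [Nat.coprime_two_left, Nat.odd_iff]; omega
          · refine Nat.Coprime.coprime_dvd_left (h.sdvd _ (mem_product.1 a).2)
              (Nat.Coprime.pow_left 2 (Nat.eq_one_of_dvd_one ((Nat.dvd_gcd
                (Nat.gcd_dvd_left _ _) ?_).trans (dvd_of_eq b))))
            refine (Nat.dvd_add_right (Nat.gcd_dvd_right (M e.2) (4 * e.1 - 1))).1 ?_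
            rw [show 4 * e.1 - 1 + (4 * u + 1) = 4 * (u + e.1) by omega]
            exact ((Nat.gcd_dvd_left _ _).trans c).mul_left 4

theorem card_XT (h : Ty J T M s) : #(XX J ×ˢ T) ≤ 2 ^ (7 * J) := by
  rw [card_product, XX, Nat.card_Ioc, show 7 * J = (4 * J + J) + 2 * J by ring, pow_add _ _ (2 * J)]
  exact Nat.mul_le_mul (Nat.sub_le _ _) h.card

theorem th_bd : ∃ C : ℝ, 0 < C ∧ ∀ {ε : Type} (J : ℕ) (T : Finset ε) (M s : ε → ℕ) (u : ℕ),
    6 ≤ J → Ty J T M s → (∀ x ∈ XX J, (1 / (4 * x - 1).totient : ℝ) ≤ J / x) →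
    Th (PP J) (EE J T s) (fun e => M e.2) (fun e => e.1) u ≤ Phi J T M s u + C ∧
    Phi J T M s u / 34 - C ≤ Th (PP J) (EE J T s) (fun e => M e.2) (fun e => e.1) u := by
  obtain ⟨C, C0, hC⟩ := err
  refine ⟨C + 5, by positivity, fun J T M s u J6 h hG => ?_⟩
  have J1 : (6 : ℝ) ≤ J := by exact_mod_cast J6
  have P0 : 0 ≤ Phi J T M s u := sum_nonneg fun _ _ => by positivity
  have bd : ∀ Z, 2 ^ (16 * J) ≤ Z → Z ≤ 2 ^ (17 * J) →
      |∑ e ∈ RR J T M s u, psi Z (4 * e.1 - 1) (s e.2) - Z * Phi J T M s u| ≤ C * Z ∧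
      8 * J ≤ Real.log Z ∧ Real.log Z ≤ 17 * J := fun Z Z1 Z2 => by
    have a := (log_two_pow (16 * J)).1
    have b := (log_two_pow (17 * J)).2
    have Zp : (0 : ℝ) < Z := by exact_mod_cast lt_of_lt_of_le (by positivity) Z1
    push_cast at a b
    refine ⟨le_trans ?_ (hC J T M s u Z J6 h hG Z1 Z2), le_trans (by linarith) (a.trans
      (Real.log_le_log (by positivity) (by exact_mod_cast Z1))),
      (Real.log_le_log Zp (by exact_mod_cast Z2)).trans b⟩
    rw [Phi, mul_sum, ← sum_sub_distrib]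
    simp only [mul_one_div]
    exact abs_sum_le_sum_abs _ _
  have blk : ∀ j ∈ range J, ∀ Z, Z = 2 ^ (16 * J + j) →
      2 ≤ Z ∧ 2 ^ (16 * J) ≤ Z ∧ 2 * Z ≤ 2 ^ (17 * J) := fun j hj Z e => by
    have := mem_range.1 hj
    subst e
    refine ⟨Nat.le_self_pow (by omega) 2, Nat.pow_le_pow_right two_pos (by omega), ?_⟩
    rw [← pow_succ']
    exact Nat.pow_le_pow_right two_pos (by omega)
  rw [th_eq]
  constructor
  · refine (sum_le_card_nsmul _ _ ((Phi J T M s u + C) / J) fun j hj => ?_).trans ?_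
    · obtain ⟨Z0, Z1, Z2⟩ := blk j hj _ rfl
      generalize 2 ^ (16 * J + j) = Z at *
      have Zp : (0 : ℝ) < Z := by exact_mod_cast (by omega : 0 < Z)
      obtain ⟨-, a, -⟩ := bd Z Z1 (by omega)
      have b := (abs_le.1 (bd (2 * Z) (by omega) Z2).1).2
      push_cast at b
      refine (sum_le_sum fun e _ => block_up Z0 _ _).trans ?_
      rw [← sum_div]
      calc _ ≤ 2 * Z * (Phi J T M s u + C) / (Z * (2 * J)) := by
            gcongr <;> linarith
        _ = _ := by field_simp
    · rw [card_range, nsmul_eq_mul, mul_div_cancel₀ _ (by positivity)]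
      linarith
  · refine le_trans ?_ (card_nsmul_le_sum _ _ ((Phi J T M s u / 34 - (C + 5)) / J) fun j hj => ?_)
    · rw [card_range, nsmul_eq_mul, mul_div_cancel₀ _ (by positivity)]
    · obtain ⟨Z0, Z1, Z2⟩ := blk j hj _ rfl
      generalize 2 ^ (16 * J + j) = Z at *
      have Zp : (0 : ℝ) < Z := by exact_mod_cast (by omega : 0 < Z)
      have a := (abs_le.1 (bd Z Z1 (by omega)).1).2
      obtain ⟨b, c, d⟩ := bd (2 * Z) (by omega) Z2
      replace b := (abs_le.1 b).1
      push_cast at b c d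
      have n1 : (#(RR J T M s u) : ℝ) ≤ 2 ^ (7 * J) := by
        exact_mod_cast (card_filter_le _ _).trans (card_XT h)
      have n2 : (2 : ℝ) ^ (8 * J) ≤ √(2 * Z) := Real.le_sqrt_of_sq_le (by
        rw [← pow_mul, show 8 * J * 2 = 16 * J by ring]
        exact_mod_cast Z1.trans (by omega))
      have n3 : (J : ℝ) ≤ 2 ^ J := by exact_mod_cast J.lt_two_pow_self.le
      have l0 : 0 < Real.log (2 * Z) := by linarith
      have n4 : #(RR J T M s u) * (2 * √(2 * Z) * Real.log (2 * Z)) ≤ 68 * Z := by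
        calc _ ≤ 2 ^ (7 * J) * (2 * √(2 * Z) * (17 * 2 ^ J)) := by gcongr; linarith
          _ = 34 * (2 ^ (8 * J) * √(2 * (Z : ℝ))) := by
            rw [show 8 * J = 7 * J + J by ring, pow_add]; ring
          _ ≤ 34 * (√(2 * (Z : ℝ)) * √(2 * (Z : ℝ))) := by gcongr
          _ = _ := by rw [Real.mul_self_sqrt (by positivity)]; ring
      refine le_trans ?_ (sum_le_sum fun e _ => block_lo Z0 _ _)
      rw [← sum_div, sum_sub_distrib, sum_sub_distrib, sum_const, nsmul_eq_mul]
      calc _ = Z * Phi J T M s u / (2 * Z * (17 * J)) - Z * (16 * C + 80) / (2 * Z * (8 * J)) := by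
            field_simp; ring
        _ ≤ Z * Phi J T M s u / (2 * Z * Real.log (2 * Z)) -
            Z * (3 * C + 68) / (2 * Z * Real.log (2 * Z)) := by gcongr <;> norm_num
        _ ≤ _ := by
            rw [← sub_div]
            exact div_le_div_of_nonneg_right (by linarith) (by positivity)

end Pool.Agent.P.MP_ccd64a_nt
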