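import Pool.Agent.P.MP_ccd64a_nt.Cnt
import Pool.Agent.P.MP_0ad054_nt.An.All

/-! Primes in progressions, dyadic blocks and harmonic sums over progressions. -/

namespace Pool.Agent.P.MP_ccd64a_nt

open Finset Pool.Agent.P.MP_0ad054_nt
open scoped ArithmeticFunction.vonMangoldt

/-- The Chebyshev function of the progression `k ∣ 4 s n + 1`. -/
noncomputable def psi (X k s : ℕ) : ℝ := ∑ n ∈ Ioc 0 X with k ∣ 4 * s * n + 1, Λ n

theorem res {k s : ℕ} (hk : k ≠ 0) (h : (4 * s).Coprime k) :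
    ∃ v ∈ (range k).filter (·.Coprime k), ∀ n, k ∣ 4 * s * n + 1 ↔ n ≡ v [MOD k] := by
  obtain ⟨v, hv, e⟩ := Nat.exists_mul_mod_eq_of_coprime (k - 1) h hk
  have d : k ∣ 4 * s * v + 1 :=
    (dvd_add_iff (u := k - 1) (by rw [Nat.sub_add_cancel (Nat.pos_of_ne_zero hk)])).2 e
  refine ⟨v, mem_filter.2 ⟨mem_range.2 hv, Nat.eq_one_of_dvd_one ?_⟩, fun n => ?_⟩
  · exact (Nat.dvd_add_right (Dvd.dvd.mul_left (Nat.gcd_dvd_left v k) _)).1
      ((Nat.gcd_dvd_right v k).trans d)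
  · rw [dvd_add_iff d]
    exact ⟨fun e => Nat.ModEq.cancel_left_of_coprime h.symm e, fun e => e.mul_left _⟩

theorem bvmax (A : ℕ) : ∃ C : ℝ, 0 < C ∧ ∀ X K : ℕ, 2 ≤ X → K ^ 3 ≤ X → ∃ Er : ℕ → ℝ,
    (∀ k, 0 ≤ Er k) ∧ ∑ k ∈ Icc 1 K, Er k ≤ C * X / Real.log X ^ A ∧ ∀ k ∈ Icc 1 K,
      Er k ≤ 2 * Real.log X * X / k + X / k.totient ∧
      ∀ s, (4 * s).Coprime k → |psi X k s - X / k.totient| ≤ Er k := by
  obtain ⟨C, C0, hC⟩ := An.bv_all (1 / 3) A (by norm_num)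
  refine ⟨C, C0, fun X K hX hK => ?_⟩
  set g : ℕ → ℕ → ℝ := fun k v =>
    |∑ n ∈ Ioc 0 X with n ≡ v [MOD k], Λ n - (X : ℝ) / k.totient| with hg
  have ex : ∀ k, ∃ v, k ≠ 0 → v.Coprime k ∧ ∀ w ∈ (range k).filter (·.Coprime k), g k w ≤ g k v := by
    intro k
    by_cases hk : k = 0
    · exact ⟨0, fun h => absurd hk h⟩
    obtain ⟨v, hv, hm⟩ := exists_max_image ((range k).filter (·.Coprime k)) (g k)
      ⟨1 % k, mem_filter.2 ⟨mem_range.2 (Nat.mod_lt _ (Nat.pos_of_ne_zero hk)), by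
        rw [Nat.Coprime, ← Nat.gcd_rec]; simp⟩⟩
    exact ⟨v, fun _ => ⟨(mem_filter.1 hv).2, hm⟩⟩
  choose v hv using ex
  have X1 : (1 : ℝ) ≤ X := by exact_mod_cast (by omega : 1 ≤ X)
  refine ⟨fun k => g k (v k), fun k => abs_nonneg _, ?_, fun k hk => ⟨?_, fun s hs => ?_⟩⟩
  · have hK' : (K : ℝ) ≤ (X : ℝ) ^ (1 / 3 : ℝ) := by
      rw [one_div, Real.le_rpow_inv_iff_of_pos (by positivity) (by positivity) (by norm_num)]
      exact_mod_cast hK
    refine le_of_eq_of_le (sum_congr rfl fun k _ => ?_) (hC X K (fun k => v k) hX hK' fun k hk =>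
      Nat.isCoprime_iff_coprime.2 (hv k (by have := (mem_Icc.1 hk).1; omega)).1)
    simp only [hg, Nat.modEq_iff_dvd, dvd_sub_comm (b := (v k : ℤ))]
    rfl
  · obtain ⟨k1, k2⟩ := mem_Icc.1 hk
    have k0 : (0 : ℝ) < k := by exact_mod_cast k1
    have kX : (k : ℝ) ≤ X := by
      exact_mod_cast k2.trans ((Nat.le_self_pow (by norm_num) K).trans hK)
    have l0 := Real.log_nonneg X1
    refine (abs_sub _ _).trans (add_le_add ?_ (abs_of_nonneg (by positivity)).le)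
    rw [abs_of_nonneg (sum_nonneg fun _ _ => ArithmeticFunction.vonMangoldt_nonneg)]
    refine (sum_le_card_nsmul _ _ (Real.log X) fun n hn => ?_).trans ?_
    · obtain ⟨n1, n2⟩ := mem_Ioc.1 (mem_filter.1 hn).1
      exact ArithmeticFunction.vonMangoldt_le_log.trans
        (Real.log_le_log (by exact_mod_cast n1) (by exact_mod_cast n2))
    · have h1 := (abs_le.1 (cnt (Nat.zero_le X) k1 (v k))).2
      have h2 : (1 : ℝ) ≤ X / k := (one_le_div k0).2 kX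
      rw [nsmul_eq_mul]
      simp only [Nat.cast_zero, sub_zero] at h1
      calc _ ≤ (2 * (X / k)) * Real.log X := by gcongr; linarith
        _ = _ := by ring
  · have k1 := (mem_Icc.1 hk).1
    obtain ⟨w, hw, e⟩ := res (by omega) hs
    simp only [psi, e]
    exact (hv k (by omega)).2 w hw

theorem dyadic (f : ℕ → ℝ) (a J : ℕ) : ∑ n ∈ Ioc (2 ^ a) (2 ^ (a + J)), f n =
    ∑ j ∈ range J, ∑ n ∈ Ioc (2 ^ (a + j)) (2 * 2 ^ (a + j)), f n := by
  induction J with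
  | zero => simp
  | succ J ih =>
    rw [sum_range_succ, ← ih, sum_Ioc_consecutive f (Nat.pow_le_pow_right two_pos (by omega))
      (by omega), ← add_assoc, pow_succ, mul_comm]

theorem ap_block {D Z : ℕ} (hD : 0 < D) (u : ℕ) :
    |(#{x ∈ Ioc Z (2 * Z) | D ∣ u + x} : ℝ) - Z / D| ≤ 1 := by
  have d : D ∣ (D - 1) * u + u := ⟨u, by
    obtain ⟨k, rfl⟩ := Nat.exists_eq_add_one_of_ne_zero hD.ne'
    rw [Nat.add_sub_cancel]; ring⟩
  simp only [add_comm u, dvd_add_iff d]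
  convert cnt (show Z ≤ 2 * Z by omega) hD ((D - 1) * u) using 4
  push_cast; ring

theorem ap_up {D a : ℕ} (hD : 0 < D) (h : D ≤ 2 ^ a) (u J : ℕ) :
    ∑ x ∈ Ioc (2 ^ a) (2 ^ (a + J)) with D ∣ u + x, (1 / x : ℝ) ≤ 2 * J / D := by
  rw [sum_filter, dyadic]
  refine (sum_le_card_nsmul _ _ (2 / D : ℝ) fun j _ => ?_).trans (by simp; ring_nf; rfl)
  rw [← sum_filter]
  have hZ : D ≤ 2 ^ (a + j) := h.trans (Nat.pow_le_pow_right two_pos (by omega))
  generalize 2 ^ (a + j) = Z at hZ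
  have D0 : (0 : ℝ) < D := by exact_mod_cast hD
  have hZ' : (D : ℝ) ≤ Z := by exact_mod_cast hZ
  have Z0 := D0.trans_le hZ'
  refine (sum_le_card_nsmul _ _ (1 / Z : ℝ) fun x hx => one_div_le_one_div_of_le Z0 ?_).trans ?_
  · exact_mod_cast (mem_Ioc.1 (mem_filter.1 hx).1).1.le
  · have h1 := (abs_le.1 (ap_block (Z := Z) hD u)).2
    have h2 : (1 : ℝ) ≤ Z / D := (one_le_div D0).2 hZ'
    rw [nsmul_eq_mul]
    calc _ ≤ (2 * (Z / D)) * (1 / Z : ℝ) := by gcongr; linarith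
      _ = _ := by field_simp

theorem ap_lo {D a : ℕ} (hD : 0 < D) (h : 2 * D ≤ 2 ^ a) (u J : ℕ) :
    (J / (4 * D) : ℝ) ≤ ∑ x ∈ Ioc (2 ^ a) (2 ^ (a + J)) with D ∣ u + x, (1 / x : ℝ) := by
  rw [sum_filter, dyadic]
  refine le_trans (by simp; ring_nf; rfl) (card_nsmul_le_sum _ _ (1 / (4 * D) : ℝ) fun j _ => ?_)
  rw [← sum_filter]
  have hZ : 2 * D ≤ 2 ^ (a + j) := h.trans (Nat.pow_le_pow_right two_pos (by omega))
  generalize 2 ^ (a + j) = Z at hZ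
  have D0 : (0 : ℝ) < D := by exact_mod_cast hD
  have hZ' : 2 * (D : ℝ) ≤ Z := by exact_mod_cast hZ
  have Z0 : (0 : ℝ) < Z := by linarith
  refine le_trans ?_ (card_nsmul_le_sum _ _ (1 / (2 * Z) : ℝ) fun x hx => ?_)
  · have h1 := (abs_le.1 (ap_block (Z := Z) hD u)).1
    have h2 : (2 : ℝ) ≤ Z / D := (le_div_iff₀ D0).2 hZ'
    rw [nsmul_eq_mul]
    calc _ = ((Z / D) / 2) * (1 / (2 * Z) : ℝ) := by field_simp; ring
      _ ≤ _ := by gcongr; linarith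
  · obtain ⟨x1, x2⟩ := mem_Ioc.1 (mem_filter.1 hx).1
    exact one_div_le_one_div_of_le (by exact_mod_cast (by omega : 0 < x)) (by exact_mod_cast x2)

theorem block_up {Z : ℕ} (hZ : 2 ≤ Z) (k s : ℕ) :
    ∑ p ∈ Ioc Z (2 * Z) with p.Prime ∧ k ∣ 4 * s * p + 1, (1 / p : ℝ) ≤
      psi (2 * Z) k s / (Z * Real.log Z) := by
  have Z1 : (1 : ℝ) < Z := by exact_mod_cast hZ
  have l0 := Real.log_pos Z1
  rw [psi, sum_div]
  refine (sum_le_sum fun p hp => ?_).trans (sum_le_sum_of_subset_of_nonneg (fun p hp => ?_)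
    fun n _ _ => div_nonneg ArithmeticFunction.vonMangoldt_nonneg (by positivity))
  · obtain ⟨h1, h2, -⟩ := mem_filter.1 hp
    have h3 : (Z : ℝ) ≤ p := by exact_mod_cast (mem_Ioc.1 h1).1.le
    rw [ArithmeticFunction.vonMangoldt_apply_prime h2]
    calc (1 / p : ℝ) ≤ Real.log Z / (Z * Real.log Z) := by
          rw [mul_comm, ← div_div, div_self l0.ne']; gcongr
      _ ≤ _ := by gcongr
  · obtain ⟨h1, -, h3⟩ := mem_filter.1 hp
    exact mem_filter.2 ⟨mem_Ioc.2 ⟨by have := (mem_Ioc.1 h1).1; omega, (mem_Ioc.1 h1).2⟩, h3⟩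

theorem block_lo {Z : ℕ} (hZ : 2 ≤ Z) (k s : ℕ) :
    (psi (2 * Z) k s - psi Z k s - 2 * √(2 * Z) * Real.log (2 * Z)) / (2 * Z * Real.log (2 * Z)) ≤
      ∑ p ∈ Ioc Z (2 * Z) with p.Prime ∧ k ∣ 4 * s * p + 1, (1 / p : ℝ) := by
  have Z1 : (2 : ℝ) ≤ Z := by exact_mod_cast hZ
  have l0 : 0 < Real.log (2 * Z) := Real.log_pos (by linarith)
  have h1 := Chebyshev.psi_sub_theta_le (x := 2 * Z) (by linarith)
  rw [Chebyshev.psi_sub_theta_eq_sum_not_prime, show (2 * Z : ℝ) = (2 * Z : ℕ) by norm_num,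
    Nat.floor_natCast] at h1
  have h2 : psi (2 * Z) k s - psi Z k s ≤
      ∑ p ∈ Ioc Z (2 * Z) with p.Prime ∧ k ∣ 4 * s * p + 1, Λ p +
        ∑ n ∈ Ioc 0 (2 * Z) with ¬ n.Prime, Λ n := by
    simp only [psi, sum_filter]
    rw [← sum_Ioc_consecutive _ (Nat.zero_le Z) (show Z ≤ 2 * Z by omega),
      ← sum_Ioc_consecutive _ (Nat.zero_le Z) (show Z ≤ 2 * Z by omega), add_sub_cancel_left,
      add_left_comm, ← sum_add_distrib]
    refine le_add_of_nonneg_of_le (sum_nonneg fun n _ => ?_) (sum_le_sum fun n _ => ?_)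
    · split_ifs <;> simp
    · by_cases e1 : n.Prime <;> by_cases e2 : k ∣ 4 * s * n + 1 <;> simp [e1, e2]
  push_cast at h1
  rw [div_le_iff₀ (by positivity), sum_mul]
  refine le_trans (by linarith) (sum_le_sum (f := fun p => Λ p) fun p hp => ?_)
  obtain ⟨h3, h4, -⟩ := mem_filter.1 hp
  have h5 : (p : ℝ) ≤ 2 * Z := by exact_mod_cast (mem_Ioc.1 h3).2
  have p0 : (0 : ℝ) < p := by exact_mod_cast h4.pos
  rw [ArithmeticFunction.vonMangoldt_apply_prime h4]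
  calc Real.log p ≤ 1 * Real.log (2 * Z) := by rw [one_mul]; gcongr
    _ ≤ (2 * Z / p) * Real.log (2 * Z) := by gcongr; exact (one_le_div p0).2 h5
    _ = _ := by ring

end Pool.Agent.P.MP_ccd64a_nt
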