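import Pool.Agent.P.MP_ccd64a_nt.Prm
import Pool.Agent.P.MP_ccd64a_nt.Sieve

/-! The conditional mass of the events: upper and lower bounds. -/

namespace Pool.Agent.P.MP_ccd64a_nt

open Finset Pool.Agent.P.MP_0ad054_nt

variable {ε : Type*}

/-- The range of `x`. -/
def XX (J : ℕ) : Finset ℕ := Ioc (2 ^ (4 * J)) (2 ^ (4 * J + J))

/-- The large primes. -/
def PP (J : ℕ) : Finset ℕ := (Ioc (2 ^ (16 * J)) (2 ^ (16 * J + J))).filter Nat.Prime

/-- The events attached to the prime `p`. -/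
def EE (J : ℕ) (T : Finset ε) (s : ε → ℕ) (p : ℕ) : Finset (ℕ × ε) :=
  (XX J ×ˢ T).filter fun e => 4 * e.1 - 1 ∣ 4 * s e.2 * p + 1

/-- Admissible families of small moduli `M` and multipliers `s`. -/
structure Ty (J : ℕ) (T : Finset ε) (M s : ε → ℕ) : Prop where
  M0 : ∀ t ∈ T, 1 ≤ M t ∧ M t ≤ 2 ^ (2 * J)
  sle : ∀ t ∈ T, s t ≤ 2 ^ (3 * J)
  sdvd : ∀ t ∈ T, s t ∣ M t ^ 2
  inj : Set.InjOn s T
  div : ∀ D, D ≠ 0 → (#{t ∈ T | M t ∣ D} : ℝ) ≤ tau D ^ 2
  card : #T ≤ 2 ^ (2 * J)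

/-- The pairs that are compatible with `u`. -/
def RR (J : ℕ) (T : Finset ε) (M s : ε → ℕ) (u : ℕ) : Finset (ℕ × ε) :=
  (XX J ×ˢ T).filter fun e => M e.2 ∣ u + e.1 ∧ (4 * s e.2).Coprime (4 * e.1 - 1)

variable {J : ℕ} {T : Finset ε} {M s : ε → ℕ}

theorem XX_pos {x : ℕ} (h : x ∈ XX J) : 1 ≤ x := Nat.zero_lt_of_lt (mem_Ioc.1 h).1

theorem th_eq (J : ℕ) (T : Finset ε) (M s : ε → ℕ) (u : ℕ) :
    Th (PP J) (EE J T s) (fun e => M e.2) (fun e => e.1) u = ∑ j ∈ range J, ∑ e ∈ RR J T M s u,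
      ∑ p ∈ Ioc (2 ^ (16 * J + j)) (2 * 2 ^ (16 * J + j)) with
        p.Prime ∧ 4 * e.1 - 1 ∣ 4 * s e.2 * p + 1, (1 / p : ℝ) := by
  rw [Th, PP, sum_filter, dyadic]
  refine sum_congr rfl fun j _ => ?_
  simp only [sum_filter]
  rw [sum_comm]
  refine sum_congr rfl fun p _ => ?_
  split_ifs with h
  · simp only [h, true_and]
    rw [← sum_filter, sum_const, nsmul_eq_mul, mul_one_div, EE, RR, filter_filter, filter_filter]
    congr 2
    refine congrArg card (filter_congr fun e _ => ?_)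
    refine ⟨fun a => ⟨⟨a.2, Nat.eq_one_of_dvd_one ?_⟩, a.1⟩, fun a => ⟨a.2, a.1.1⟩⟩
    exact (Nat.dvd_add_right (Dvd.dvd.mul_right (Nat.gcd_dvd_left _ _) p)).1
      ((Nat.gcd_dvd_right _ _).trans a.1)
  · simp [h]

theorem log_two_pow (n : ℕ) : (n : ℝ) / 2 ≤ Real.log (2 ^ n) ∧ Real.log (2 ^ n) ≤ n := by
  rw [Real.log_pow]
  have := Real.log_two_gt_d9
  have := Real.log_two_lt_d9
  have : (0 : ℝ) ≤ n := n.cast_nonneg
  constructor <;> nlinarith

theorem mom2 (h : Ty J T M s) (u : ℕ) :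
    ∑ x ∈ XX J, (#{t ∈ T | M t ∣ u + x} : ℝ) ^ 2 / x ≤ 2 * J * (1 + 4 * J) ^ 16 := by
  classical
  have lc : ∀ tt ∈ T ×ˢ T, (M tt.1).lcm (M tt.2) ∈ Icc 1 (2 ^ (4 * J)) := fun tt ht => by
    obtain ⟨a, b⟩ := h.M0 _ (mem_product.1 ht).1
    obtain ⟨c, d⟩ := h.M0 _ (mem_product.1 ht).2
    refine mem_Icc.2 ⟨Nat.lcm_pos a c, (Nat.le_of_dvd (Nat.mul_pos a c)
      (Nat.lcm_dvd_mul _ _)).trans ((Nat.mul_le_mul b d).trans_eq ?_)⟩
    rw [← pow_add]; congr 1; ring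
  calc _ = ∑ x ∈ XX J, ∑ tt ∈ T ×ˢ T, if (M tt.1).lcm (M tt.2) ∣ u + x then (1 / x : ℝ) else 0 := by
        refine sum_congr rfl fun x _ => ?_
        rw [← sum_filter, sum_const, nsmul_eq_mul, mul_one_div, sq, ← Nat.cast_mul,
          ← card_product, ← filter_product]
        simp only [Nat.lcm_dvd_iff]
    _ ≤ ∑ tt ∈ T ×ˢ T, (2 * J / ((M tt.1).lcm (M tt.2) : ℕ) : ℝ) := by
        rw [sum_comm]
        refine sum_le_sum fun tt ht => ?_
        rw [← sum_filter]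
        exact ap_up (mem_Icc.1 (lc tt ht)).1 (mem_Icc.1 (lc tt ht)).2 u J
    _ ≤ ∑ D ∈ Icc 1 (2 ^ (4 * J)), 2 * J * (tau D ^ 4 / D) := by
        rw [← sum_fiberwise_of_maps_to lc]
        refine sum_le_sum fun D hD => ?_
        have D0 : D ≠ 0 := by have := (mem_Icc.1 hD).1; omega
        rw [sum_congr rfl fun tt ht => by rw [(mem_filter.1 ht).2], sum_const, nsmul_eq_mul]
        have h1 : (#{tt ∈ T ×ˢ T | (M tt.1).lcm (M tt.2) = D} : ℝ) ≤
            #{t ∈ T | M t ∣ D} * #{t ∈ T | M t ∣ D} := by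
          rw [← Nat.cast_mul, ← card_product, ← filter_product]
          exact Nat.cast_le.2 (card_le_card (monotone_filter_right _ fun tt _ e =>
            ⟨e ▸ Nat.dvd_lcm_left _ _, e ▸ Nat.dvd_lcm_right _ _⟩))
        have h2 := h.div D D0
        calc _ ≤ (tau D ^ 2 * tau D ^ 2) * (2 * J / D : ℝ) := by
              gcongr
              exact h1.trans (by gcongr)
          _ = _ := by ring
    _ ≤ _ := by
        rw [← mul_sum]
        refine mul_le_mul_of_nonneg_left ((sum_tau_pow_div_le 4 _).trans ?_) (by positivity)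
        have := log_two_pow (4 * J)
        push_cast at this ⊢
        gcongr
        · linarith [this.1]
        · exact this.2

theorem err : ∃ C : ℝ, 0 < C ∧ ∀ {ε : Type} (J : ℕ) (T : Finset ε) (M s : ε → ℕ) (u Z : ℕ),
    6 ≤ J → Ty J T M s → (∀ x ∈ XX J, (1 / (4 * x - 1).totient : ℝ) ≤ J / x) →
    2 ^ (16 * J) ≤ Z → Z ≤ 2 ^ (17 * J) →
    ∑ e ∈ RR J T M s u, |psi Z (4 * e.1 - 1) (s e.2) - Z / (4 * e.1 - 1).totient| ≤ C * Z := by
  obtain ⟨C, C0, hC⟩ := bvmax 18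
  refine ⟨C + 70 * 5 ^ 16, by positivity, fun J T M s u Z J6 h hG Z1 Z2 => ?_⟩
  have K3 : (4 * 2 ^ (5 * J)) ^ 3 ≤ Z := by
    refine le_trans ?_ Z1
    rw [show 4 = 2 ^ 2 by norm_num, ← pow_add, ← pow_mul]
    exact Nat.pow_le_pow_right two_pos (by omega)
  have Z0 : 2 ≤ Z := le_trans (Nat.le_self_pow (by omega) 2) Z1
  obtain ⟨Er, E0, E1, E2⟩ := hC Z (4 * 2 ^ (5 * J)) Z0 K3
  have mem : ∀ x ∈ XX J, 4 * x - 1 ∈ Icc 1 (4 * 2 ^ (5 * J)) := fun x hx => by
    have h1 := XX_pos hx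
    have h2 := (mem_Ioc.1 hx).2
    rw [show 4 * J + J = 5 * J by ring] at h2
    exact mem_Icc.2 ⟨by omega, by omega⟩
  have J1 : (6 : ℝ) ≤ J := by exact_mod_cast J6
  have Zp : (0 : ℝ) < Z := by exact_mod_cast (by omega : 0 < Z)
  have l1 : (J : ℝ) ≤ Real.log Z := by
    have := (log_two_pow (16 * J)).1
    push_cast at this
    exact le_trans (by linarith) (this.trans (Real.log_le_log (by positivity) (by exact_mod_cast Z1)))
  have l2 : Real.log Z ≤ 17 * J := by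
    have := (log_two_pow (17 * J)).2
    push_cast at this
    exact (Real.log_le_log Zp (by exact_mod_cast Z2)).trans this
  set τ : ℕ → ℝ := fun x => #{t ∈ T | M t ∣ u + x} with hτ
  have s1 : ∑ x ∈ XX J, Er (4 * x - 1) ≤ C * Z / J ^ 18 := by
    rw [← sum_image (s := XX J) (g := fun x => 4 * x - 1) (f := Er) fun x hx y hy e => by
      have := XX_pos hx; have := XX_pos hy; simp only at e; omega]
    refine (sum_le_sum_of_subset_of_nonneg (image_subset_iff.2 mem) fun k _ _ => E0 k).trans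
      (E1.trans ?_)
    gcongr
  have s2 : ∀ x ∈ XX J, Er (4 * x - 1) ≤ 35 * J * Z / x := fun x hx => by
    have x1 := XX_pos hx
    have x2 : (0 : ℝ) < x := by exact_mod_cast x1
    have x3 : (x : ℝ) ≤ (4 * x - 1 : ℕ) := by exact_mod_cast (by omega : x ≤ 4 * x - 1)
    have h1 : 2 * Real.log Z * Z / (4 * x - 1 : ℕ) ≤ 2 * (17 * J) * Z / x := by gcongr
    have h2 := mul_le_mul_of_nonneg_left (hG x hx) Zp.le
    rw [mul_one_div] at h2
    refine (E2 _ (mem x hx)).1.trans ((add_le_add h1 h2).trans_eq ?_)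
    ring
  calc _ ≤ ∑ e ∈ XX J ×ˢ T with M e.2 ∣ u + e.1, Er (4 * e.1 - 1) := by
        refine (sum_le_sum fun e he => ?_).trans (sum_le_sum_of_subset_of_nonneg
          (monotone_filter_right _ fun e _ a => a.1) fun _ _ _ => E0 _)
        obtain ⟨a, b⟩ := mem_filter.1 he
        exact (E2 _ (mem _ (mem_product.1 a).1)).2 _ b.2
    _ = ∑ x ∈ XX J, τ x * Er (4 * x - 1) := by
        rw [sum_filter, sum_product]
        refine sum_congr rfl fun x _ => ?_
        rw [← sum_filter]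
        simp [hτ]
    _ ≤ ∑ x ∈ XX J, (J ^ 18 * Er (4 * x - 1) + 35 * J * Z / J ^ 18 * (τ x ^ 2 / x)) := by
        refine sum_le_sum fun x hx => ?_
        have h1 : τ x ≤ J ^ 18 + τ x ^ 2 / J ^ 18 := by
          have t0 : 0 ≤ τ x := Nat.cast_nonneg _
          rcases le_total (τ x) (J ^ 18) with a | a
          · exact le_add_of_le_of_nonneg a (by positivity)
          · refine le_add_of_nonneg_of_le (by positivity) ?_
            rw [le_div_iff₀ (by positivity), sq]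
            gcongr
        calc _ ≤ (J ^ 18 + τ x ^ 2 / J ^ 18) * Er (4 * x - 1) := by gcongr; exact E0 _
          _ ≤ J ^ 18 * Er (4 * x - 1) + τ x ^ 2 / J ^ 18 * (35 * J * Z / x) := by
            rw [add_mul]; gcongr; exact s2 x hx
          _ = _ := by ring
    _ ≤ J ^ 18 * (C * Z / J ^ 18) + 35 * J * Z / J ^ 18 * (2 * J * (5 * J) ^ 16) := by
        rw [sum_add_distrib, ← mul_sum, ← mul_sum]
        gcongr
        refine (mom2 h u).trans ?_
        gcongr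
        linarith
    _ = _ := by field_simp; ring

end Pool.Agent.P.MP_ccd64a_nt
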